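import Pool.Agent.MP_b2c033_nt.UT.Spec
import Pool.Agent.MP_b2c033_nt.UN.Basic

/-! The support at a cusp depends only on the first column, up to the Galois twist. -/

namespace Pool.Agent.MP_b2c033_nt.UT

open Pool.Agent.MP_b2c033_nt.U CongruenceSubgroup
open scoped MatrixGroups

noncomputable section

namespace COLx

variable {V : Type} [NormedAddCommGroup V] [InnerProductSpace ℂ V] {C : CS V}

/-- the integral translation -/
def tz (x : ℤ) : SZ := mkZ 1 x 0 1 (by ring)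

theorem ofZ_tz (x : ℤ) : ofZ (tz x) = Tr x := by ext <;> simp [ofZ, tz, Tr]

theorem act_ofZ (γ δ : SZ) (X : V) :
    C.act (ofZ (γ * δ)) X = C.act (ofZ δ) (C.act (ofZ γ) X) := by
  rw [ofZ_mul, C.act_mul _ _ _ (by simp) (by simp)]

theorem lev {M : ℕ} {X : V} (h : C.Fix (Gamma1 M) X) : Lev M fun γ => C.act (ofZ γ) X := by
  intro γ δ hδ
  have h1 := (UN.mem_GG M _).1 ((Gamma_normal M).conj_mem δ hδ γ)
  have h2 := h _ ((UN.mem_G1 M _).2 ⟨h1.2.1, h1.2.2⟩)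
  have e : γ * δ = γ * δ * γ⁻¹ * γ := by simp
  show C.act (ofZ (γ * δ)) X = C.act (ofZ γ) X
  rw [e, act_ofZ, h2]

theorem su_tz (X : V) (γ : SZ) (x : ℤ) (ν : ℚ) : Su C X (γ * tz x) ν ↔ Su C X γ ν := by
  unfold Su
  rw [act_ofZ, ofZ_tz, C.β_Tr]
  exact ⟨right_ne_zero_of_mul, mul_ne_zero (Complex.exp_ne_zero _)⟩

theorem su_col {M : ℕ} {X : V} (h : C.Fix (Gamma1 M) X) (γ γ' : SZ) (ν : ℚ)
    (h0 : γ' 0 0 ≡ γ 0 0 [ZMOD M]) (h1 : γ' 1 0 ≡ γ 1 0 [ZMOD M]) :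
    Su C X γ' ν ↔ Su C X γ ν := by
  set x : ℤ := γ 0 1 * γ' 1 1 - γ 1 1 * γ' 0 1 with hx
  have d1 := detZ γ
  have d2 := detZ γ'
  obtain ⟨s, hs⟩ := h0.dvd
  obtain ⟨t, ht⟩ := h1.dvd
  have hm : γ⁻¹ * (γ' * tz x) ∈ Gamma M := by
    rw [AvAux.inv_mul_mem]
    simp only [tz, Matrix.SpecialLinearGroup.coe_mul, Matrix.mul_apply, Fin.sum_univ_two,
      mkZ_00, mkZ_01, mkZ_10, mkZ_11, mul_one, mul_zero, add_zero]
    refine ⟨h0, Int.modEq_iff_dvd.2 ⟨γ' 0 1 * (t * γ 0 1 - s * γ 1 1), ?_⟩, h1,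
      Int.modEq_iff_dvd.2 ⟨γ' 1 1 * (t * γ 0 1 - s * γ 1 1), ?_⟩⟩
    · rw [hx]
      linear_combination (γ' 0 1) * d1 - (γ 0 1) * d2 + γ' 0 1 * γ 0 1 * ht -
        γ' 0 1 * γ 1 1 * hs
    · rw [hx]
      linear_combination (γ' 1 1) * d1 - (γ 1 1) * d2 + γ' 1 1 * γ 0 1 * ht -
        γ' 1 1 * γ 1 1 * hs
  rw [← su_tz X γ' x ν]
  have h2 := lev h γ _ hm
  rw [mul_inv_cancel_left] at h2
  unfold Su
  rw [show C.act (ofZ (γ' * tz x)) X = C.act (ofZ γ) X from h2]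

end COLx

open COLx in
theorem col : S_COL := by
  intro V _ _ C hC X M u γ γ' ν hM hX hR
  refine ⟨fun hs => ?_, fun hu h0 h1 => ?_⟩
  · by_contra hn
    have hm : tz M ∈ Gamma M := (UN.mem_GG M _).2 ⟨dvd_rfl, dvd_zero _, by simp [tz]⟩
    have h2 : C.act (ofZ (γ * tz M)) X = C.act (ofZ γ) X := lev hX γ _ hm
    rw [act_ofZ, ofZ_tz] at h2
    exact hs (UN.β_fix h2 (by simpa using hn))
  · obtain ⟨v, w, hv⟩ := hu
    have d1 := detZ γ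
    have huv : v * u ≡ 1 [ZMOD M] := Int.modEq_iff_dvd.2 ⟨w, by linear_combination -hv⟩
    obtain ⟨δ, e0, e1, e2, e3⟩ := hC.av.lift M (γ 0 0) (γ 0 1 * u) (γ 1 0 * v) (γ 1 1)
      (Int.modEq_iff_dvd.2 ⟨-(w * γ 0 1 * γ 1 0), by
        linear_combination -d1 + γ 0 1 * γ 1 0 * hv⟩)
    have e4 : δ 1 0 * u ≡ γ 1 0 [ZMOD M] := by
      have := (e2.mul_right u).trans (by
        rw [mul_assoc]; exact huv.mul_left _ : γ 1 0 * v * u ≡ γ 1 0 * 1 [ZMOD M])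
      rwa [mul_one] at this
    have e5 : γ' 1 0 ≡ δ 1 0 [ZMOD M] := by
      have h3 : γ' 1 0 * (v * u) ≡ γ' 1 0 * 1 [ZMOD M] := huv.mul_left _
      have h4 : γ' 1 0 * u * v ≡ γ 1 0 * v [ZMOD M] := h1.mul_right v
      rw [mul_one, mul_comm v u, ← mul_assoc] at h3
      exact (h3.symm.trans h4).trans e2.symm
    rw [su_col hX δ γ' ν (h0.trans e0.symm) e5]
    exact (hC.gal0 X M u γ δ ν hM hX hR ⟨v, w, hv⟩ ⟨e0, e1, e4, e3⟩).not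

end

end Pool.Agent.MP_b2c033_nt.UT
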