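import Pool.Agent.MP_b2c033_nt.UT.Spec
import Pool.Agent.MP_b2c033_nt.UN.Basic

/-! Row FIX: rationality and invariance of the integral combinations. -/

namespace Pool.Agent.MP_b2c033_nt.UT

open Pool.Agent.MP_b2c033_nt.U CongruenceSubgroup
open scoped MatrixGroups InnerProductSpace

noncomputable section

theorem fix : S_FIX := by
  intro V _ _ C N g b c hg h0
  have pos : ∀ δ ∈ c.support, 0 < δ := fun δ hδ => Nat.pos_of_ne_zero fun e => h0 (e ▸ hδ)
  have G : UN.G0 C N g := UN.fix0_iff.1 hg.fix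
  have two : ∀ x : Mt, x.det = 1 → (∀ δ ∈ c.support, ∃ a' b' c' d' : ℤ, x.a = a' ∧ δ * x.b = b' ∧
      x.c = δ * N * c' ∧ x.d = d') → C.act x (C.comb g c) = C.comb g c := by
    intro x hx h
    unfold CS.comb Finsupp.sum
    rw [map_sum]
    refine Finset.sum_congr rfl fun δ hδ => ?_
    obtain ⟨a', b', c', d', h1, h2, h3, h4⟩ := h δ hδ
    have δ0 : (0 : ℚ) < δ := by exact_mod_cast pos δ hδ
    have h5 : a' * d' - b' * (N * c') = 1 := by
      have : (a' : ℚ) * d' - b' * (N * c') = 1 := by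
        rw [← hx, Mt.det, h1, h3, h4, ← h2]
        ring
      exact_mod_cast this
    rw [map_smul, UN.act_comm (x' := UN.zm a' b' (N * c') d') (y' := Vd δ) 1 one_ne_zero
      (by rwa [det_Vd]) (by rw [hx]; exact one_pos) (UN.det_zm_pos h5) (by rwa [det_Vd]) ?_ g,
      G _ _ _ _ h5 (dvd_mul_right _ _)]
    ext <;> simp [UN.zm, Vd, h1, h2, h3, h4] <;> ring
  refine ⟨fun ν => ?_, two, fun M hM γ hγ => two _ (det_ofZ γ) fun δ hδ => ?_⟩
  · have one : ∀ μ : ℚ, ∃ r : ℚ, C.β μ g = r := fun μ => by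
      by_cases h : C.β μ g = 0
      · exact ⟨0, by simpa using h⟩
      · obtain ⟨n, -, rfl⟩ := G.t1.nat h
        exact ⟨b n, by simpa using hg.co n⟩
    choose r hr using one
    refine ⟨∑ δ ∈ c.support, c δ * (δ * r (ν / δ)), ?_⟩
    unfold CS.comb Finsupp.sum
    rw [map_sum, Rat.cast_sum]
    refine Finset.sum_congr rfl fun δ hδ => ?_
    rw [map_smul, UN.β_Vn (pos δ hδ), hr, smul_eq_mul]
    push_cast
    rfl
  · obtain ⟨k, hk⟩ := (Int.natCast_dvd_natCast.2 (hM δ hδ)).trans ((UN.mem_G1 M γ).1 hγ).1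
    refine ⟨γ 0 0, δ * γ 0 1, k, γ 1 1, rfl, by simp [ofZ], ?_, rfl⟩
    simp [ofZ, hk]

end

end Pool.Agent.MP_b2c033_nt.UT
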