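import Pool.Agent.MP_b2c033_nt.UT.Spec

/-! The Gram matrix of the dilates. -/

namespace Pool.Agent.MP_b2c033_nt.UT

open Pool.Agent.MP_b2c033_nt.U
open scoped InnerProductSpace

namespace GRx

variable {V : Type} [NormedAddCommGroup V] [InnerProductSpace ℂ V] {C : CS V} {p : ℕ} {a ε : ℤ}
  {X Y : V}

theorem vd0 (v : V) : C.act (Vd ((p : ℚ) ^ 0)) v = v := by
  rw [pow_zero]; exact C.act_sc 1 v one_ne_zero

theorem vd_add (hp : 0 < p) (m n : ℕ) (v : V) : C.act (Vd ((p : ℚ) ^ (n + m))) v =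
    C.act (Vd ((p : ℚ) ^ m)) (C.act (Vd ((p : ℚ) ^ n)) v) := by
  rw [← C.act_mul _ _ _ (by simp [hp]) (by simp [hp])]
  congr 2
  ext <;> simp [Vd, pow_add]

theorem canc (hp : 0 < p) (m i k : ℕ) (v w : V) :
    ⟪C.act (Vd ((p : ℚ) ^ (i + m))) v, C.act (Vd ((p : ℚ) ^ (k + m))) w⟫_ℂ =
      ⟪C.act (Vd ((p : ℚ) ^ i)) v, C.act (Vd ((p : ℚ) ^ k)) w⟫_ℂ := by
  rw [vd_add hp, vd_add hp, C.inner_act _ _ _ (by simp [hp])]

theorem tr_nat (h : C.act (Tr 1) Y = Y) (j : ℕ) : C.act (Tr j) Y = Y := by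
  induction j with
  | zero => exact C.act_sc 1 Y one_ne_zero
  | succ j ih =>
    rw [show Tr (j + 1 : ℕ) = Tr j * Tr 1 by ext <;> simp [Tr, add_comm],
      C.act_mul _ _ _ (by simp) (by simp), ih, h]

theorem key (hp : 0 < p) (hX : PF C p a ε X) (hY : PF C p a ε Y) (n : ℕ) :
    p * ⟪C.act (Vd ((p : ℚ) ^ 0)) X, C.act (Vd ((p : ℚ) ^ (n + 1))) Y⟫_ℂ =
      a * ⟪C.act (Vd ((p : ℚ) ^ 0)) X, C.act (Vd ((p : ℚ) ^ n)) Y⟫_ℂ -
        ε * ⟪C.act (Vd ((p : ℚ) ^ (0 + 2))) X, C.act (Vd ((p : ℚ) ^ (n + 1))) Y⟫_ℂ := by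
  have e := congrArg (fun v => ⟪v, C.act (Vd ((p : ℚ) ^ (n + 1))) Y⟫_ℂ) hX.2
  have f : ∀ i ∈ Finset.range p, ⟪C.act (Tr ((i : ℚ) / p)) X,
      C.act (Vd ((p : ℚ) ^ (n + 1))) Y⟫_ℂ = ⟪X, C.act (Vd ((p : ℚ) ^ (n + 1))) Y⟫_ℂ := by
    intro i _
    rw [← C.inner_act (Tr ((i : ℚ) / p)) X _ (by simp),
      ← C.act_mul _ _ _ (by simp [hp]) (by simp),
      show Vd ((p : ℚ) ^ (n + 1)) * Tr ((i : ℚ) / p) = Tr (p ^ n * i : ℕ) * Vd ((p : ℚ) ^ (n + 1)) by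
        ext <;> simp [Tr, Vd]
        field_simp
        ring,
      C.act_mul _ _ _ (by simp) (by simp [hp]), tr_nat hY.1]
  simp only [sum_inner, inner_sub_left, inner_smul_left, map_intCast] at e
  rw [Finset.sum_congr rfl f, Finset.sum_const, Finset.card_range, nsmul_eq_mul] at e
  rw [vd0, e, ← vd0 (C := C) (p := p) X, ← canc hp 1 0 n, vd0, zero_add, pow_one]

theorem half (hp : p.Prime) (hε : ε = 0 ∨ ε = 1) (hX : PF C p a ε X) (hY : PF C p a ε Y) (n : ℕ) :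
    ⟪C.act (Vd ((p : ℚ) ^ 0)) X, C.act (Vd ((p : ℚ) ^ n)) Y⟫_ℂ = (rr p a ε n : ℂ) * ⟪X, Y⟫_ℂ := by
  have p2 : (2 : ℤ) ≤ p := by exact_mod_cast hp.two_le
  have p0 : (p : ℂ) ≠ 0 := by exact_mod_cast hp.ne_zero
  induction n using Nat.twoStepInduction with
  | zero => simp only [vd0, rr, Complex.ofReal_one, one_mul]
  | one =>
    have h1 := key hp.pos hX hY 0
    have h2 := congrArg (starRingEnd ℂ) (key hp.pos hY hX 0)
    simp only [map_mul, map_sub, map_natCast, map_intCast, inner_conj_symm] at h2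
    rw [show 0 + 2 = 0 + 1 + 1 from rfl, canc hp.pos] at h1
    rw [show 0 + 2 = 0 + 1 + 1 from rfl, canc hp.pos] at h2
    simp only [vd0, zero_add] at h1 h2 ⊢
    have n1 : (p : ℂ) - ε ≠ 0 := by exact_mod_cast (by omega : (p : ℤ) - ε ≠ 0)
    have n2 : (p : ℂ) + ε ≠ 0 := by exact_mod_cast (by omega : (p : ℤ) + ε ≠ 0)
    rw [rr]
    push_cast
    rw [div_mul_eq_mul_div, eq_div_iff n2]
    exact mul_left_cancel₀ n1 (by linear_combination p * h1 - ε * h2)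
  | more n i0 i1 =>
    have h := key hp.pos hX hY (n + 1)
    rw [show n + 1 + 1 = n + 2 from rfl, canc hp.pos, i0, i1] at h
    rw [rr]
    push_cast
    rw [div_mul_eq_mul_div, eq_div_iff p0]
    linear_combination h

end GRx

open GRx

theorem gr : S_GR := by
  intro V _ _ C p a ε X Y i k hp hε hX hY
  rcases le_total i k with h | h <;> obtain ⟨n, rfl⟩ := Nat.exists_eq_add_of_le' h
  · have := canc (C := C) hp.pos i 0 n X Y
    rw [zero_add] at this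
    rw [this, half hp hε hX hY, Nat.dist_eq_sub_of_le h, Nat.add_sub_cancel]
  · have := canc (C := C) hp.pos k 0 n Y X
    rw [zero_add] at this
    rw [← inner_conj_symm, this, half hp hε hY hX, Nat.dist_eq_sub_of_le_right h,
      Nat.add_sub_cancel, map_mul, inner_conj_symm, Complex.conj_ofReal]

end Pool.Agent.MP_b2c033_nt.UT
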