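import Pool.Agent.MP_b2c033_nt.UT.Spec

/-! The Gram inequality. -/

namespace Pool.Agent.MP_b2c033_nt.UT

open Pool.Agent.MP_b2c033_nt.U Finset
open scoped InnerProductSpace

namespace KAPx

variable {V : Type} [NormedAddCommGroup V] [InnerProductSpace ℂ V]

lemma key (E : ℕ → V →ₗ[ℂ] V) (P : V → Prop) (ρ : ℕ → ℝ)
    (hG : ∀ X Y i k, P X → P Y → ⟪E i X, E k Y⟫_ℂ = (ρ (Nat.dist i k) : ℂ) * ⟪X, Y⟫_ℂ)
    (hP : ∀ (x y : ℂ) X Y, P X → P Y → P (x • X + y • Y)) (t : ℕ) (ht : 1 ≤ t) (α : ℕ → ℝ)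
    (σ τ : ℝ) (a0 : α 0 = 1) (a1 : α t = 0)
    (hc : ∀ k ≤ t, ∑ j ∈ range (t + 1), α j * ρ (Nat.dist j k) =
      if k = 0 then σ else if k = t then τ else 0) (Y : ℕ → V) (hY : ∀ i, P (Y i)) :
    (σ - |τ|) * (‖Y 0‖ ^ 2 + ‖Y t‖ ^ 2) ≤ ‖∑ i ∈ range (t + 1), E i (Y i)‖ ^ 2 := by
  obtain ⟨Z, hZ⟩ : ∃ Z : ℕ → V, ∀ j, Z j = (α j : ℂ) • Y 0 + (α (t - j) : ℂ) • Y t :=
    ⟨_, fun _ => rfl⟩
  have pZ : ∀ j, P (Z j) := fun j => hZ j ▸ hP _ _ _ _ (hY 0) (hY t)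
  have Z0 : Z 0 = Y 0 := by simp [hZ, a0, a1]
  have Zt : Z t = Y t := by simp [hZ, a0, a1]
  have t0 : t ≠ 0 := by omega
  have hc' : ∀ k ≤ t, ∑ j ∈ range (t + 1), α (t - j) * ρ (Nat.dist j k) =
      ∑ j ∈ range (t + 1), α j * ρ (Nat.dist j (t - k)) := fun k hk => by
    rw [← sum_flip fun j => α j * ρ (Nat.dist j (t - k))]
    refine sum_congr rfl fun j hj => ?_
    have := mem_range.1 hj
    have e : Nat.dist j k = Nat.dist (t - j) (t - k) := by unfold Nat.dist; omega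
    rw [e]
  have hin : ∀ W : ℕ → V, (∀ i, P (W i)) →
      ⟪∑ j ∈ range (t + 1), E j (Z j), ∑ k ∈ range (t + 1), E k (W k)⟫_ℂ =
        (σ * ⟪Y 0, W 0⟫_ℂ + τ * ⟪Y t, W 0⟫_ℂ) + (τ * ⟪Y 0, W t⟫_ℂ + σ * ⟪Y t, W t⟫_ℂ) := by
    intro W hW
    have h1 : ∀ k ≤ t, ⟪∑ j ∈ range (t + 1), E j (Z j), E k (W k)⟫_ℂ =
        ((if k = 0 then σ else if k = t then τ else 0 : ℝ) : ℂ) * ⟪Y 0, W k⟫_ℂ +
        ((if t - k = 0 then σ else if t - k = t then τ else 0 : ℝ) : ℂ) * ⟪Y t, W k⟫_ℂ := by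
      intro k hk
      rw [← hc k hk, ← hc _ (Nat.sub_le t k), ← hc' k hk, sum_inner]
      push_cast
      rw [sum_mul, sum_mul, ← sum_add_distrib]
      refine sum_congr rfl fun j _ => ?_
      rw [hG _ _ _ _ (pZ j) (hW k), hZ j, inner_add_left, inner_smul_left, inner_smul_left,
        Complex.conj_ofReal, Complex.conj_ofReal]
      ring
    rw [inner_sum, sum_eq_add_of_mem 0 t (by simp) (by simp) t0.symm, h1 0 (by omega),
      h1 t le_rfl]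
    · simp [t0]
    · intro k hk ⟨k0, kt⟩
      have := mem_range.1 hk
      rw [h1 k (by omega), if_neg k0, if_neg kt, if_neg (by omega), if_neg (by omega)]
      simp
  have h1 := congrArg Complex.re (hin Y hY)
  have h2 := congrArg Complex.re (hin Z pZ)
  rw [Z0, Zt, ← h1] at h2
  have h3 := norm_sub_sq (𝕜 := ℂ) (∑ j ∈ range (t + 1), E j (Z j))
    (∑ k ∈ range (t + 1), E k (Y k))
  have n : ∀ v : V, (⟪v, v⟫_ℂ).re = ‖v‖ ^ 2 := fun v => inner_self_eq_norm_sq (𝕜 := ℂ) v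
  have h4 : (⟪Y t, Y 0⟫_ℂ).re = (⟪Y 0, Y t⟫_ℂ).re := inner_re_symm (𝕜 := ℂ) _ _
  have h5 : |(⟪Y 0, Y t⟫_ℂ).re| ≤ ‖Y 0‖ * ‖Y t‖ :=
    (Complex.abs_re_le_norm _).trans (norm_inner_le_norm _ _)
  simp only [Complex.add_re, Complex.re_ofReal_mul, n, h4] at h1
  rw [n] at h2
  have h6 : -(|τ| * (‖Y 0‖ * ‖Y t‖)) ≤ τ * (⟪Y 0, Y t⟫_ℂ).re :=
    neg_le_of_abs_le (by rw [abs_mul]; exact mul_le_mul_of_nonneg_left h5 (abs_nonneg _))
  have h7 := mul_nonneg (abs_nonneg τ) (sq_nonneg (‖Y 0‖ - ‖Y t‖))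
  have h8 := sq_nonneg ‖∑ j ∈ range (t + 1), E j (Z j) - ∑ k ∈ range (t + 1), E k (Y k)‖
  rw [h3, RCLike.re_to_complex] at h8
  nlinarith

lemma pf (C : CS V) (p : ℕ) (a ε : ℤ) (x y : ℂ) (X Y : V) (hX : PF C p a ε X)
    (hY : PF C p a ε Y) : PF C p a ε (x • X + y • Y) := by
  refine ⟨by rw [map_add, map_smul, map_smul, hX.1, hY.1], ?_⟩
  simp only [map_add, map_smul, sum_add_distrib, ← smul_sum, hX.2, hY.2]
  module

/-- three coefficients -/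
def al (f g : ℝ) (j : ℕ) : ℝ := if j = 0 then 1 else if j = 1 then -f else if j = 2 then -g else 0

lemma sum_al (f g : ℝ) (s : ℕ) (u : ℕ → ℝ) :
    ∑ j ∈ range (s + 2 + 1), al f g j * u j = u 0 - f * u 1 - g * u 2 := by
  rw [sum_range_succ', sum_range_succ', sum_range_succ']
  simp [al]
  ring

end KAPx

open KAPx in
theorem kapp : S_KAP := by
  intro hG V _ _ C p e a ε Y d t hp hL hY ht
  have hε : ε = 0 ∨ ε = 1 := by
    rcases Nat.lt_trichotomy e 1 with h | h | h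
    · exact Or.inr (hL.1 (by omega)).1
    · exact Or.inl (hL.2.1 h).1
    · exact Or.inl (hL.2.2 h).1
  have p2 : (2 : ℝ) ≤ p := by exact_mod_cast hp.two_le
  have p0 : (p : ℝ) ≠ 0 := by positivity
  have p1 : (p : ℝ) + 1 ≠ 0 := by positivity
  have pe : (p : ℝ) + ε ≠ 0 := by
    rcases hε with rfl | rfl
    · simpa using hp.ne_zero
    · simpa using p1
  have K := key (fun i => C.act (Vd ((p : ℚ) ^ (d + i)))) (PF C p a ε) (rr p a ε)
    (fun X Z i k hX hZ => by rw [hG V C p a ε X Z _ _ hp hε hX hZ, Nat.dist_add_add_left])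
    (pf C p a ε) t ht
  have fin : ∀ σ τ : ℝ, kap p e a t ≤ σ - |τ| → (σ - |τ|) * (‖Y 0‖ ^ 2 + ‖Y t‖ ^ 2) ≤
      ‖∑ i ∈ range (t + 1), C.act (Vd ((p : ℚ) ^ (d + i))) (Y i)‖ ^ 2 →
      kap p e a t * (‖Y 0‖ ^ 2 + ‖Y t‖ ^ 2) ≤
      ‖∑ i ∈ range (t + 1), C.act (Vd ((p : ℚ) ^ (d + i))) (Y i)‖ ^ 2 := fun σ τ h k =>
    (mul_le_mul_of_nonneg_right h (by positivity)).trans k
  have cs : (e = 0 ∧ ε = 1 ∧ (a : ℝ) ^ 2 ≤ p ^ 2) ∨ (e = 1 ∧ ε = 0 ∧ (a = 1 ∨ a = -1)) ∨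
      (e ≠ 0 ∧ e ≠ 1 ∧ ε = 0 ∧ a = 0) := by
    rcases Nat.lt_trichotomy e 1 with h | h | h
    · obtain ⟨h1, h2⟩ := hL.1 (by omega)
      refine Or.inl ⟨by omega, h1, ?_⟩
      rw [← sq_abs]
      exact pow_le_pow_left₀ (abs_nonneg _) (by exact_mod_cast h2) 2
    · exact Or.inr (Or.inl ⟨h, hL.2.1 h⟩)
    · exact Or.inr (Or.inr ⟨by omega, by omega, hL.2.2 h⟩)
  obtain rfl | rfl | ⟨s, rfl⟩ : t = 1 ∨ t = 2 ∨ ∃ s, t = s + 1 + 2 := by
    rcases Nat.lt_trichotomy t 2 with h | h | h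
    · exact Or.inl (by omega)
    · exact Or.inr (Or.inl h)
    · exact Or.inr (Or.inr ⟨t - 3, by omega⟩)
  · refine fin 1 (rr p a ε 1) ?_ (K (al 0 0) _ _ (by simp [al]) (by simp [al]) (fun k hk => ?_)
      Y hY)
    · rcases cs with ⟨rfl, rfl, _⟩ | ⟨rfl, rfl, rfl | rfl⟩ | ⟨e0, e1, rfl, rfl⟩
      · simp [kap, rr, abs_div, abs_of_pos (show (0 : ℝ) < p + 1 by positivity)]
      · simp [kap, rr]
      · simp [kap, rr, abs_div]
      · simp [kap, rr, e0, e1]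
    · interval_cases k <;> simp [al, Nat.dist, rr]
  · refine fin (1 - rr p a ε 1 ^ 2) (rr p a ε 2 - rr p a ε 1 ^ 2) ?_
      (K (al (rr p a ε 1) 0) _ _ (by simp [al]) (by simp [al]) (fun k hk => ?_) Y hY)
    · rcases cs with ⟨rfl, rfl, h⟩ | ⟨rfl, rfl, rfl | rfl⟩ | ⟨e0, e1, rfl, rfl⟩
      · have e1 : rr p a 1 2 - rr p a 1 1 ^ 2 = -((1 - (a : ℝ) ^ 2 / (p + 1) ^ 2) / p) := by
          simp only [rr]
          push_cast
          field_simp
          ring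
        have e2 : 0 ≤ 1 - (a : ℝ) ^ 2 / (p + 1) ^ 2 := by
          rw [sub_nonneg, div_le_one (by positivity)]
          nlinarith
        rw [e1, abs_neg, abs_of_nonneg (by positivity)]
        refine le_of_eq ?_
        simp only [kap, rr]
        push_cast
        field_simp
      · have e1 : rr p 1 0 2 - rr p 1 0 1 ^ 2 = 0 := by simp [rr]; field_simp; ring
        rw [e1]
        simp [kap, rr]
      · have e1 : rr p (-1) 0 2 - rr p (-1) 0 1 ^ 2 = 0 := by simp [rr]; field_simp; ring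
        rw [e1]
        simp [kap, rr, div_pow]
      · simp [kap, rr, e0, e1]
    · rw [sum_al _ _ 0]
      interval_cases k <;> simp [Nat.dist, rr, sq]
  · refine fin (1 - a / p * rr p a ε 1 + ε / p * rr p a ε 2) 0 ?_
      (K (al (a / p) (-(ε / p))) _ _ (by simp [al]) (by simp [al]) (fun k hk => ?_) Y hY)
    · rw [abs_zero, sub_zero]
      refine le_of_eq ?_
      rcases cs with ⟨rfl, rfl, h⟩ | ⟨rfl, rfl, rfl | rfl⟩ | ⟨e0, e1, rfl, rfl⟩
      · simp [kap, rr]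
        field_simp
        ring
      · simp [kap, rr]
        field_simp
      · simp [kap, rr]
        field_simp
      · simp [kap, rr, e0, e1]
    · rw [sum_al _ _ (s + 1), ite_self]
      rcases k with _ | _ | k
      · simp [Nat.dist, rr]
      · simp [Nat.dist, rr]
        field_simp
        ring
      · have d0 : Nat.dist 0 (k + 1 + 1) = k + 2 := by unfold Nat.dist; omega
        have d1 : Nat.dist 1 (k + 1 + 1) = k + 1 := by unfold Nat.dist; omega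
        have d2 : Nat.dist 2 (k + 1 + 1) = k := by unfold Nat.dist; omega
        rw [d0, d1, d2, if_neg (by omega), rr]
        ring

end Pool.Agent.MP_b2c033_nt.UT
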