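import Pool.Agent.MP_b2c033_nt.UT.Spec

/-! The local averages. -/

namespace Pool.Agent.MP_b2c033_nt.UT

open Pool.Agent.MP_b2c033_nt.U

namespace LOCx

/-- the mean of `f` for the law of the truncated valuation -/
noncomputable def S (x : ℝ) (f : ℕ → ℝ) (K : ℕ) : ℝ :=
  f 0 + ∑ m ∈ Finset.range K, (f (m + 1) - f m) / (x ^ m * (x + 1))

variable {x : ℝ} {f : ℕ → ℝ} {m K : ℕ}

theorem S_succ : S x f (m + 1) = S x f m + (f (m + 1) - f m) / (x ^ m * (x + 1)) := by
  rw [S, S, Finset.sum_range_succ, add_assoc]

theorem S_const (a : ℝ) (h : m ≤ K) (hf : ∀ j, m ≤ j → f j = a) : S x f K = S x f m := by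
  induction K, h using Nat.le_induction with
  | base => rfl
  | succ k hk ih => rw [S_succ, ih, hf _ hk, hf _ (by omega), sub_self, zero_div, add_zero]

theorem S_zero (hf : ∀ j ≤ m, f j = 0) : S x f m = 0 := by
  induction m with
  | zero => simpa [S] using hf
  | succ k ih =>
    rw [S_succ, ih fun j hj => hf j (by omega), hf _ le_rfl, hf k (by omega), sub_self, zero_div,
      add_zero]

theorem S_pow (hx : 0 < x) (c : ℕ) (hf : ∀ j ≤ m, f j = x ^ (2 * j) / x ^ c) :
    S x f m = x ^ m / x ^ c := by
  induction m with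
  | zero => simpa [S] using hf
  | succ k ih =>
    rw [S_succ, ih fun j hj => hf j (by omega), hf _ le_rfl, hf k (by omega)]
    field_simp
    ring

theorem lo_eq {p d n j : ℕ} (hp : (0 : ℝ) < p) (h : 2 * j < 2 * d + n) :
    lo p d n j = (p : ℝ) ^ (2 * j) / p ^ (d + n) := by
  rw [lo, if_pos h, sub_sub, zpow_sub₀ hp.ne']
  norm_cast

end LOCx

open LOCx

theorem loc : S_LOC := by
  intro p K d n L hp hL hd hK
  have p0 : (0 : ℝ) < p := by exact_mod_cast hp.pos
  have av : ∀ f : ℕ → ℝ, Av ⊤ L (fun γ => f (jv p K (γ 1 0))) = S p f K :=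
    fun f => Av_jv hp K f 1 hL hd
  refine ⟨fun hn => ?_, ?_⟩
  · rw [av (lo p d n), av (hi p d n), av (ti p d n)]
    refine ⟨?_, ?_, ?_⟩
    · rw [S_const (f := lo p d n) (K := K) (m := d + (n - 1) / 2 + 1) 0 (by omega)
        fun j hj => if_neg (by omega), S_succ, S_pow p0 (d + n) fun j hj => lo_eq p0 (by omega), lo_eq (j := d + _) p0 (by omega), lo,
        if_neg (by omega), w0]
      obtain ⟨k, hk⟩ : ∃ k, n = (n - 1) / 2 + 1 + n / 2 + k ∧ k = 0 := ⟨0, by omega, rfl⟩
      generalize (n - 1) / 2 = a at hk ⊢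
      generalize n / 2 = b at hk ⊢
      rw [hk.1, hk.2]
      field_simp
      ring
    · rw [S_const (f := hi p d n) (K := K) (m := d + n / 2 + 1) (p ^ d) (by omega)
        fun j hj => if_pos (by omega), S_succ,
        S_zero (f := hi p d n) (m := d + n / 2) fun j hj => if_neg (by omega), hi, hi, if_pos (by omega), if_neg (by omega), w0]
      field_simp
      ring
    · rw [w1]
      split_ifs with h
      · obtain ⟨k, rfl⟩ : ∃ k, n = 2 * (k + 1) := ⟨n / 2 - 1, by omega⟩
        rw [S_const (f := ti p d (2 * (k + 1))) (K := K) (m := d + k + 1 + 1) 0 (by omega)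
          fun j hj => if_neg (by omega), S_succ, S_succ,
          S_zero (f := ti p d (2 * (k + 1))) (m := d + k) fun j hj => if_neg (by omega), ti, ti, ti,
          if_pos (by omega : 2 * (d + k + 1) = _), if_neg (by omega), if_neg (by omega), Nat.mul_div_cancel_left _ two_pos]
        field_simp
        ring
      · exact S_zero fun j _ => if_neg (by omega)
  · rintro rfl
    rw [av fun j => lo p d 0 j + ti p d 0 j + hi p d 0 j, S_const (m := d) (p ^ d) hK, S_pow p0 d,
      div_self (by positivity)]
    · intro j hj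
      rcases hj.eq_or_lt with rfl | h
      · rw [lo, ti, hi, if_neg (by omega), if_pos (by omega), if_neg (by omega)]
        field_simp
        ring
      · rw [lo_eq p0 (by omega), ti, hi, if_neg (by omega), if_neg (by omega)]
        simp
    · intro j hj
      rw [lo, ti, hi, if_neg (by omega)]
      rcases hj.eq_or_lt with rfl | h
      · rw [if_pos (by omega), if_neg (by omega)]
        simp
      · rw [if_neg (by omega), if_pos (by omega)]
        simp

end Pool.Agent.MP_b2c033_nt.UT
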