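import Pool.Agent.MP_b2c033_nt.UT.Spec

/-! The induction over the primes. -/

namespace Pool.Agent.MP_b2c033_nt.UT

open Pool.Agent.MP_b2c033_nt.U CongruenceSubgroup
open scoped MatrixGroups InnerProductSpace

noncomputable section

namespace MAINx

theorem le_one (ν : ℚ) (hν : 0 < ν) (h : ∀ q : ℕ, q.Prime → padicValRat q ν = 0) : ν ≤ 1 := by
  have h1 : ν.num.natAbs = 1 := by
    by_contra hne
    obtain ⟨p, hp, hd⟩ := Nat.exists_prime_and_dvd hne
    have := Fact.mk hp
    have h2 : ¬ p ∣ ν.den := fun h3 => hp.one_lt.ne' (Nat.eq_one_of_dvd_coprimes ν.reduced hd h3)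
    have h3 := h p hp
    rw [padicValRat, padicValNat.eq_zero_of_not_dvd h2, padicValInt] at h3
    have h4 : 1 ≤ padicValNat p ν.num.natAbs :=
      one_le_padicValNat_of_dvd (Int.natAbs_ne_zero.2 (Rat.num_ne_zero.2 hν.ne')) hd
    omega
  have h2 : ν.num = 1 := by
    have := Rat.num_pos.2 hν
    omega
  rw [← Rat.num_div_den ν, h2, div_le_one (by exact_mod_cast ν.den_pos)]
  exact_mod_cast ν.den_pos

theorem ratprod (Q : Finset ℕ) (hQ : ∀ q ∈ Q, q.Prime) : ∀ ν : ℚ, 0 < ν →
    (∀ q : ℕ, q.Prime → q ∉ Q → padicValRat q ν = 0) →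
    (ν : ℝ) ≤ ∏ q ∈ Q, (q : ℝ) ^ padicValRat q ν := by
  induction Q using Finset.induction_on with
  | empty =>
    intro ν hν h
    rw [Finset.prod_empty]
    exact_mod_cast le_one ν hν fun q hq => h q hq (Finset.notMem_empty q)
  | insert p Q hp ih =>
    intro ν hν h
    have pp := hQ p (Finset.mem_insert_self p Q)
    have hp0 : (0 : ℚ) < p := by exact_mod_cast pp.pos
    have key : ∀ q : ℕ, q.Prime → padicValRat q (ν / (p : ℚ) ^ padicValRat p ν) =
        if q = p then 0 else padicValRat q ν := by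
      intro q hq
      have := Fact.mk hq
      rw [padicValRat.div hν.ne' (zpow_ne_zero _ hp0.ne'), padicValRat.zpow]
      split_ifs with e
      · subst e
        rw [padicValRat.self hq.one_lt]; ring
      · rw [padicValRat.of_nat, padicValNat.eq_zero_of_not_dvd
          (fun hd => e ((Nat.prime_dvd_prime_iff_eq hq pp).1 hd))]
        simp
    have h1 := ih (fun q hq => hQ q (Finset.mem_insert_of_mem hq)) (ν / (p : ℚ) ^ padicValRat p ν)
      (div_pos hν (zpow_pos hp0 _)) (fun q hq hq' => by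
        rw [key q hq]
        split_ifs with e
        · rfl
        · exact h q hq fun hm => (Finset.mem_insert.1 hm).elim e hq')
    rw [Finset.prod_congr rfl (g := fun q : ℕ => (q : ℝ) ^ padicValRat q ν) fun q hq => by
      rw [key q (hQ q (Finset.mem_insert_of_mem hq)), if_neg fun e : q = p => hp (e ▸ hq)]] at h1
    have hp1 : (0 : ℝ) < (p : ℝ) ^ padicValRat p ν := zpow_pos (by exact_mod_cast pp.pos) _
    rw [Finset.prod_insert hp, mul_comm, ← div_le_iff₀ hp1]
    rwa [Rat.cast_div, Rat.cast_zpow, Rat.cast_natCast] at h1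

theorem mem_slc {p i : ℕ} {c : ℕ →₀ ℤ} {δ : ℕ} :
    δ ∈ (slc p i c).support ↔ δ ∈ c.support ∧ δ.factorization p = i := by
  rw [slc, Finsupp.support_filter, Finset.mem_filter]

theorem spread (p : ℕ) {c : ℕ →₀ ℤ} (hc : c ≠ 0) : ∃ d t, Spr p d t c := by
  have hne : c.support.Nonempty := Finsupp.support_nonempty_iff.2 hc
  obtain ⟨δ₀, h0, h0'⟩ := Finset.exists_min_image c.support (fun δ => δ.factorization p) hne
  obtain ⟨δ₁, h1, h1'⟩ := Finset.exists_max_image c.support (fun δ => δ.factorization p) hne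
  have hle := h0' δ₁ h1
  refine ⟨δ₀.factorization p, δ₁.factorization p - δ₀.factorization p, fun δ hδ => ?_, ?_, ?_⟩
  · have := h0' δ hδ
    have := h1' δ hδ
    omega
  · exact Finsupp.support_nonempty_iff.1 ⟨δ₀, mem_slc.2 ⟨h0, rfl⟩⟩
  · exact Finsupp.support_nonempty_iff.1 ⟨δ₁, mem_slc.2 ⟨h1, by omega⟩⟩

theorem adm_slc {N K p i : ℕ} {Q : Finset ℕ} {D : ℕ → ℕ} {c : ℕ →₀ ℤ}
    (h : Adm N K (insert p Q) D c) (hne : slc p i c ≠ 0) :
    Adm N K Q (Function.update D p i) (slc p i c) := by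
  refine ⟨hne, fun h0 => h.pos (mem_slc.1 h0).1, fun δ hδ q hq hq' => ?_,
    fun δ hδ => h.bd δ (mem_slc.1 hδ).1⟩
  by_cases e : q = p
  · subst e
    rw [Function.update_self]; exact (mem_slc.1 hδ).2
  · rw [Function.update_of_ne e]
    exact h.cst δ (mem_slc.1 hδ).1 q hq fun hm => (Finset.mem_insert.1 hm).elim e hq'

theorem bd_slc {N K p i : ℕ} {Q : Finset ℕ} {D : ℕ → ℕ} {c : ℕ →₀ ℤ}
    (h : Adm N K Q D c) (hne : slc p i c ≠ 0) : i + N.factorization p ≤ K := by
  obtain ⟨δ, hδ⟩ := Finsupp.support_nonempty_iff.2 hne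
  have := h.bd δ (mem_slc.1 hδ).1 p
  rwa [(mem_slc.1 hδ).2] at this

end MAINx

open MAINx in
theorem main : S_MAIN := by
  intro hB h0 h1 h2 V _ _ C hG N g b s c hN hA hO hc hc0
  have all : ∀ (K L : ℕ), 0 < L → ∀ (m : ℕ) (Q : Finset ℕ), Q.card = m → (∀ q ∈ Q, q.Prime) →
      AQ K Q ∣ L → ∀ D c, Adm N K Q D c → Claim C N g b s K L Q D c := by
    intro K L hL m
    induction m with
    | zero =>
      intro Q hQ _ _ D c ha
      obtain rfl := Finset.card_eq_zero.1 hQ
      exact hB V C N g b s hG hN hA hO K L D c hL ha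
    | succ m ih =>
      intro Q hQ hpr hd D c ha
      obtain ⟨p, hp, hp2⟩ : ∃ p ∈ Q, p = 2 → Q = {2} := by
        by_cases hex : ∃ p ∈ Q, p ≠ 2
        · obtain ⟨p, hp, hne⟩ := hex
          exact ⟨p, hp, fun e => absurd e hne⟩
        · push Not at hex
          obtain ⟨p, hp⟩ : Q.Nonempty := Finset.card_pos.1 (by omega)
          exact ⟨p, hp, fun e => Finset.eq_singleton_iff_unique_mem.2 ⟨e ▸ hp, hex⟩⟩
      obtain ⟨Q', hpQ, rfl⟩ : ∃ Q', p ∉ Q' ∧ Q = insert p Q' :=
        ⟨Q.erase p, Finset.notMem_erase p Q, (Finset.insert_erase hp).symm⟩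
      have hc' : Q'.card = m := by
        rw [Finset.card_insert_of_notMem hpQ] at hQ
        omega
      have hpr' : ∀ q ∈ Q', q.Prime := fun q hq => hpr q (Finset.mem_insert_of_mem hq)
      have hd' : AQ K Q' ∣ L := by
        refine dvd_trans ?_ hd
        unfold AQ
        rw [Finset.prod_insert hpQ]
        exact Dvd.intro_left _ rfl
      obtain ⟨d, t, hs⟩ := spread p ha.ne
      rcases Nat.eq_zero_or_pos t with rfl | ht
      · have e : slc p d c = c := by
          unfold slc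
          exact (Finsupp.filter_eq_self_iff _ _).2 fun δ hδ => by
            have := hs.rg δ (Finsupp.mem_support_iff.2 hδ)
            omega
        have ha' := adm_slc ha hs.bot
        have hb := bd_slc ha hs.bot
        rw [e] at ha'
        exact h0 V C N g b s hG hN hA hO K L p Q' (Function.update D p d) c hL (hpr p hp) hpQ hpr'
          hd (by rwa [Function.update_self]) (ih Q' hc' hpr' hd' _ c ha') D
          fun q hq => (Function.update_of_ne hq _ _).symm
      · by_cases hx : p = 2 ∧ N.factorization p + t = 2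
        · obtain ⟨rfl, hx⟩ := hx
          rw [hp2 rfl] at hd ha ⊢
          exact h2 V C N g b s hG hN hA hO K L d t D c hL hd ha ht hs hx
        · exact h1 V C N g b s hG hN hA hO K L p d t Q' D c hL (hpr p hp) hpQ hpr' hd ha.pos ht hs
            (bd_slc ha hs.top) hx (ih Q' hc' hpr' hd' _ _ (adm_slc ha hs.bot))
            (ih Q' hc' hpr' hd' _ _ (adm_slc ha hs.top))
  have hNp := hN.coef.pos
  set M := N * ∏ δ ∈ c.support, δ with hM
  have hP : ∏ δ ∈ c.support, δ ≠ 0 :=
    Finset.prod_ne_zero_iff.2 fun δ hδ e => hc0 (e ▸ hδ)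
  have hM0 : M ≠ 0 := mul_ne_zero hNp.ne' hP
  have hpr : ∀ q ∈ M.primeFactors, q.Prime := fun q hq => Nat.prime_of_mem_primeFactors hq
  have hL : 0 < AQ M M.primeFactors := Finset.prod_pos fun q hq => pow_pos (hpr q hq).pos _
  have hle : ∀ δ ∈ c.support, ∀ q, δ.factorization q + N.factorization q ≤ M.factorization q := by
    intro δ hδ q
    have h3 := (Nat.factorization_le_iff_dvd (fun e => hc0 (e ▸ hδ)) hP).2
      (Finset.dvd_prod_of_mem (fun δ => δ) hδ) q
    rw [hM, Nat.factorization_mul hNp.ne' hP, Finsupp.add_apply]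
    omega
  have hz : ∀ q, q ∉ M.primeFactors → M.factorization q = 0 := fun q hq => by
    rwa [← Nat.support_factorization, Finsupp.notMem_support_iff] at hq
  have hNz : ∀ q, q ∉ M.primeFactors → N.factorization q = 0 := fun q hq => by
    obtain ⟨δ, hδ⟩ := Finsupp.support_nonempty_iff.2 hc
    have := hle δ hδ q
    have := hz q hq
    omega
  obtain ⟨n, hn1, hn2, hn3, hn4⟩ := all M _ hL _ M.primeFactors rfl hpr dvd_rfl (fun _ => 0) c
    ⟨hc, hc0, fun δ hδ q _ hq => by
      have := hle δ hδ q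
      have := hz q hq
      omega, fun δ hδ q => (hle δ hδ q).trans (Nat.factorization_lt q hM0).le⟩
  have hMQ : MQ N s M.primeFactors = ((Mtot N s : ℚ) : ℝ) := by
    rw [MQ, Mtot, Rat.cast_prod]
    symm
    refine Finset.prod_subset (Nat.primeFactors_mono (Dvd.intro _ rfl) hM0) fun q _ hq => ?_
    rw [← Nat.support_factorization, Finsupp.notMem_support_iff] at hq
    rw [hq, Mp, if_pos rfl, Rat.cast_one]
  rw [hMQ] at hn3 hn4
  refine ⟨_, ⟨_, n, hL, hn1, fun γ => ?_, le_rfl⟩, hn3, ?_⟩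
  · obtain ⟨ν, h3, h4, h5⟩ := hn2 γ
    refine ⟨ν, le_trans (ratprod _ hpr ν ?_ fun q hq hq' => ?_) h5, h3⟩
    · by_contra h6
      exact h3 (C.β_neg ν _ (not_lt.1 h6))
    · rw [(h4 q hq hq').2 fun hm => by
        have := hm.1
        rw [hNz q hq'] at this
        omega, low, hNz q hq', ht]
      split_ifs
      · simp
      · simp
  · exact hn4

end

end Pool.Agent.MP_b2c033_nt.UT
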