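import Pool.Agent.MP_b2c033_nt.UT.Spec

/-! The numerical inequalities at one prime. -/

namespace Pool.Agent.MP_b2c033_nt.UT

open Pool.Agent.MP_b2c033_nt.U

namespace NUMx

/-- the mass -/
noncomputable def M (p n : ℕ) : ℝ := 2 * w0 p n + w1 p n

variable {p : ℕ}

theorem M_even (hp : (2 : ℝ) ≤ p) (k : ℕ) : M p (2 * k) = 1 / (p : ℝ) ^ k := by
  have h : (0 : ℝ) < p := by linarith
  rw [M, w0, w1, if_pos (by omega), show 2 * k / 2 = k by omega]
  field_simp
  ring

theorem M_odd (k : ℕ) : M p (2 * k + 1) = 2 / ((p : ℝ) ^ k * (p + 1)) := by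
  rw [M, w0, w1, if_neg (by omega), show (2 * k + 1) / 2 = k by omega]
  ring

theorem M_anti (hp : (2 : ℝ) ≤ p) : Antitone (M p) := by
  have h : (0 : ℝ) < p := by linarith
  refine antitone_nat_of_succ_le fun n => ?_
  obtain ⟨k, rfl | rfl⟩ := Nat.even_or_odd' n
  · have := pow_pos h k
    rw [M_odd, M_even hp, div_le_div_iff₀ (by positivity) (by positivity)]
    nlinarith
  · have := pow_pos h k
    rw [show 2 * k + 1 + 1 = 2 * (k + 1) by ring, M_odd, M_even hp,
      div_le_div_iff₀ (by positivity) (by positivity), pow_succ]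
    nlinarith

theorem M1 : M p 1 = 2 / ((p : ℝ) + 1) := by simpa using M_odd (p := p) 0

theorem M2 (hp : (2 : ℝ) ≤ p) : M p 2 = 1 / (p : ℝ) := by simpa using M_even hp 1

theorem M3 : M p 3 = 2 / ((p : ℝ) * (p + 1)) := by simpa using M_odd (p := p) 1

theorem Mp_eq {e : ℕ} (he : 1 ≤ e) (s : ℕ) :
    ((Mp p e s : ℚ) : ℝ) = 2 * w0 p e + (p : ℝ) ^ s * w1 p e := by
  rw [Mp, if_neg (by omega), w0, w1]
  by_cases h : e % 2 = 1
  · rw [if_pos h, if_neg (by omega)]
    push_cast
    ring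
  · rw [if_neg h, if_pos (by omega)]
    push_cast
    ring

theorem w0_pos (hp : (2 : ℝ) ≤ p) (n : ℕ) : 0 < w0 p n := by
  have h : (0 : ℝ) < p := by linarith
  unfold w0
  positivity

theorem w1_nonneg (hp : (2 : ℝ) ≤ p) (n : ℕ) : 0 ≤ w1 p n := by
  have h : (0 : ℝ) < p := by linarith
  have h' : (0 : ℝ) ≤ p - 1 := by linarith
  unfold w1
  split_ifs
  · positivity
  · exact le_rfl

theorem M_le (hp : (2 : ℝ) ≤ p) {e : ℕ} (he : 1 ≤ e) (s : ℕ) : M p e ≤ ((Mp p e s : ℚ) : ℝ) := by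
  rw [Mp_eq he, M]
  have := one_le_pow₀ (show (1 : ℝ) ≤ p by linarith) (n := s)
  nlinarith [w1_nonneg hp e]

theorem M_pos (hp : (2 : ℝ) ≤ p) (e : ℕ) : 0 < M p e := by
  have := w0_pos hp e
  have := w1_nonneg hp e
  unfold M
  linarith

end NUMx

open NUMx in
theorem num : S_NUM := by
  intro p e s a ε hp hL
  have h2 : (2 : ℝ) ≤ p := by exact_mod_cast hp.two_le
  have h0 : (0 : ℝ) < p := by linarith
  have h1 : (0 : ℝ) < p - 1 := by linarith
  refine ⟨fun he => Mp_eq he s, ?_⟩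
  rcases Nat.lt_trichotomy e 1 with he | rfl | he
  · obtain rfl : e = 0 := by omega
    have ha : |(a : ℝ)| ≤ p := by exact_mod_cast (hL.1 rfl).2
    have ha2 : (a : ℝ) ^ 2 ≤ (p : ℝ) ^ 2 := by
      rw [← sq_abs]
      exact pow_le_pow_left₀ (abs_nonneg _) ha 2
    have hX : 2 * (p : ℝ) + 1 ≤ (p + 1) ^ 2 - (a : ℝ) ^ 2 := by nlinarith
    have hX0 : (0 : ℝ) < (p + 1) ^ 2 - (a : ℝ) ^ 2 := by linarith
    have hY : (0 : ℝ) < p + 1 - |(a : ℝ)| := by linarith
    have eM : ((Mp p 0 s : ℚ) : ℝ) = 1 := by simp [Mp]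
    have eL : ((loss p 0 a s : ℚ) : ℝ) = max (1 / ((p : ℝ) + 1 - |(a : ℝ)|)) (max
        (if p = 2 then 3 / (2 * (9 - (a : ℝ) ^ 2))
          else ((p : ℝ) + 1) ^ 2 / (2 * (p - 1) * ((p + 1) ^ 2 - (a : ℝ) ^ 2)))
        (p / (((p : ℝ) - 1) * ((p + 1) ^ 2 - (a : ℝ) ^ 2)))) := by
      rw [loss, if_pos rfl]
      split_ifs <;> push_cast <;> rfl
    rw [eM, eL]
    refine ⟨one_pos, max_le ((div_le_one hY).2 (by linarith)) (max_le ?_ ?_), fun t ht => ?_⟩
    · split_ifs with h
      · subst h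
        push_cast at ha2
        rw [div_le_one (by linarith)]
        linarith
      · rw [div_le_one (by positivity)]
        nlinarith
    · rw [div_le_one (by positivity)]
      nlinarith
    rw [mul_one, zero_add, kap, if_pos rfl]
    by_cases t1 : t = 1
    · have k : 0 < 1 - |(a : ℝ)| / (p + 1) := by
        rw [sub_pos, div_lt_one (by positivity)]
        linarith
      rw [if_pos t1, t1]
      refine ⟨k, fun _ => le_trans (M1.trans ?_).le
        (mul_le_mul_of_nonneg_left (le_max_left _ _) (by positivity))⟩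
      field_simp
    rw [if_neg t1]
    by_cases t2 : t = 2
    · have k : 0 < (1 - (a : ℝ) ^ 2 / (p + 1) ^ 2) * (1 - 1 / p) := by
        refine mul_pos ?_ ?_ <;> rw [sub_pos, div_lt_one (by positivity)] <;> linarith
      rw [if_pos t2, t2]
      refine ⟨k, fun h => le_trans ((M2 h2).trans ?_).le (mul_le_mul_of_nonneg_left
        ((le_max_left _ _).trans (le_max_right _ _)) (by positivity))⟩
      rw [if_neg fun q => h ⟨q, rfl⟩]
      field_simp
    rw [if_neg t2]
    refine ⟨by positivity, fun _ => le_trans ((M_anti h2 (show 3 ≤ t by omega)).trans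
      (M3.trans ?_).le) (mul_le_mul_of_nonneg_left
        ((le_max_right _ _).trans (le_max_right _ _)) (by positivity))⟩
    field_simp
  · have eM : ((Mp p 1 s : ℚ) : ℝ) = 2 / ((p : ℝ) + 1) := by simp [Mp]
    have eL : ((loss p 1 a s : ℚ) : ℝ) =
        if p = 2 then 1 / 3 else ((p : ℝ) + 1) / (4 * (p - 1)) := by
      rw [loss, if_neg one_ne_zero, if_pos rfl]
      split_ifs <;> push_cast <;> rfl
    rw [eM, eL]
    refine ⟨by positivity, ?_, fun t ht => ?_⟩
    · split_ifs
      · norm_num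
      · rw [div_le_one (by positivity)]
        linarith
    rw [kap, if_neg one_ne_zero, if_pos rfl]
    by_cases t1 : t = 1
    · rw [if_pos t1, t1]
      refine ⟨by rw [sub_pos, div_lt_one h0]; linarith, fun h => ((M2 h2).trans ?_).le⟩
      rw [if_neg fun q => h ⟨q, rfl⟩]
      field_simp
      ring
    rw [if_neg t1]
    refine ⟨by rw [sub_pos, div_lt_one (by positivity)]; nlinarith, fun _ =>
      (M_anti h2 (show 3 ≤ 1 + t by omega)).trans (M3.trans_le ?_)⟩
    split_ifs with h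
    · subst h
      norm_num
    · have e : 2 * (1 - 1 / (p : ℝ) ^ 2) * ((p + 1) / (4 * (p - 1)) * (2 / (p + 1))) =
          (p + 1) / p ^ 2 := by
        field_simp
        ring
      rw [e, div_le_div_iff₀ (by positivity) (by positivity)]
      nlinarith [pow_pos h0 3]
  · have hM := M_le h2 he.le s
    have hM0 := (M_pos h2 e).trans_le hM
    have eL : ((loss p e a s : ℚ) : ℝ) = M p (e + 1) / (2 * ((Mp p e s : ℚ) : ℝ)) := by
      rw [loss, if_neg (by omega), if_neg (by omega)]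
      push_cast
      rw [Mp_eq (Nat.le_add_left 1 e), pow_zero, one_mul, M]
    have hA := M_anti h2 (Nat.le_succ e)
    rw [eL]
    refine ⟨hM0, (div_le_one (by positivity)).2 (by linarith), fun t ht => ?_⟩
    rw [kap, if_neg (by omega), if_neg (by omega)]
    refine ⟨one_pos, fun _ => (M_anti h2 (Nat.add_le_add_left ht e)).trans (le_of_eq ?_)⟩
    field_simp

end Pool.Agent.MP_b2c033_nt.UT
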