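import Pool.Agent.MP_b2c033_nt.UT.Spec

/-! Row SL: the Hecke relation as an identity of vectors, and slices of combinations. -/

namespace Pool.Agent.MP_b2c033_nt.UT

open Pool.Agent.MP_b2c033_nt.U CongruenceSubgroup
open scoped MatrixGroups InnerProductSpace Real

noncomputable section

namespace SLx

lemma ee_int (n : ℤ) : ee (n : ℚ) = 1 := by
  unfold ee
  rw [Complex.exp_eq_one_iff]
  exact ⟨n, by push_cast; ring⟩

lemma ee_eq_one {x : ℚ} (h : ee x = 1) : ∃ n : ℤ, x = n := by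
  unfold ee at h
  obtain ⟨n, hn⟩ := Complex.exp_eq_one_iff.1 h
  refine ⟨n, ?_⟩
  have h2 : (2 * π * Complex.I : ℂ) ≠ 0 := Complex.two_pi_I_ne_zero
  have h3 : (x : ℂ) = (n : ℂ) := mul_left_cancel₀ h2 (by rw [hn]; ring)
  exact_mod_cast h3

lemma ee_mul (x : ℚ) (i : ℕ) : ee (x * i) = ee x ^ i := by
  unfold ee
  rw [← Complex.exp_nat_mul]
  congr 1
  push_cast
  ring

lemma geo (p : ℕ) (hp : 0 < p) (n : ℕ) :
    ∑ i ∈ Finset.range p, ee ((n : ℚ) * ((i : ℚ) / p)) = if p ∣ n then (p : ℂ) else 0 := by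
  have hq : (p : ℚ) ≠ 0 := by exact_mod_cast hp.ne'
  have e : ∀ i : ℕ, ee ((n : ℚ) * ((i : ℚ) / p)) = ee ((n : ℚ) / p) ^ i := fun i => by
    rw [← ee_mul]; congr 1; ring
  simp only [e]
  split_ifs with h
  · obtain ⟨m, rfl⟩ := h
    have : (((p * m : ℕ) : ℚ) / p) = ((m : ℤ) : ℚ) := by push_cast; field_simp
    rw [this, ee_int]
    simp
  · have h1 : ee ((n : ℚ) / p) ≠ 1 := fun e1 => by
      obtain ⟨m, hm⟩ := ee_eq_one e1
      have h2 : (n : ℚ) = p * m := by rw [← hm]; field_simp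
      have h3 : (n : ℤ) = p * m := by exact_mod_cast h2
      exact h (Int.natCast_dvd_natCast.1 ⟨m, h3⟩)
    have h4 : ee ((n : ℚ) / p) ^ p = 1 := by
      rw [← ee_mul, div_mul_cancel₀ _ hq]
      exact_mod_cast ee_int n
    have h5 := mul_geom_sum (ee ((n : ℚ) / p)) p
    rw [h4, sub_self] at h5
    exact (mul_eq_zero.1 h5).resolve_left (sub_ne_zero.2 h1)

variable {V : Type} [NormedAddCommGroup V] [InnerProductSpace ℂ V] (C : CS V)

lemma nat_of {N : ℕ} {g : V} {b : ℕ → ℤ} (h : NF C N g b) {ν : ℚ} (hν : C.β ν g ≠ 0) :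
    ∃ n : ℕ, ν = n := by
  have hT : C.act (Tr 1) g = g := by
    have := h.fix (mkZ 1 1 0 1 (by norm_num)) (by simp [Gamma0_mem])
    have e : ofZ (mkZ 1 1 0 1 (by norm_num)) = Tr 1 := by ext <;> simp [ofZ, Tr]
    rwa [e] at this
  have h1 := C.β_Tr 1 ν g
  rw [hT, mul_one] at h1
  have h2 : ee ν = 1 := mul_right_cancel₀ hν (by rw [← h1, one_mul])
  obtain ⟨n, rfl⟩ := ee_eq_one h2
  have h3 : 0 ≤ n := by
    by_contra h4
    exact hν (C.β_neg _ _ (by exact_mod_cast (not_le.1 h4).le))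
  obtain ⟨m, rfl⟩ := Int.eq_ofNat_of_zero_le h3
  exact ⟨m, by simp⟩

lemma bVd (r ν : ℚ) (v : V) (hr : 0 < r) : C.β ν (C.act (Vd r) v) = r * C.β (ν / r) v := by
  rw [← C.β_Vd r (ν / r) v hr, mul_div_cancel₀ _ hr.ne']

lemma ext' {v w : V} (h : ∀ ν, C.β ν v = C.β ν w) : v = w :=
  sub_eq_zero.1 (C.β_inj _ fun ν => by rw [map_sub, h, sub_self])

lemma bdiv {N : ℕ} {g : V} {b : ℕ → ℤ} (h : NF C N g b) {p : ℕ} (hp : 0 < p) (m : ℕ) :
    C.β ((m : ℚ) / p) g = dn b p m := by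
  have hq : (p : ℚ) ≠ 0 := by exact_mod_cast hp.ne'
  unfold dn
  split_ifs with h1
  · obtain ⟨k, rfl⟩ := h1
    rw [Nat.mul_div_cancel_left _ hp, ← h.co]
    congr 2
    push_cast
    field_simp
  · by_contra h2
    obtain ⟨k, hk⟩ := nat_of C h (ν := (m : ℚ) / p) (by simpa using h2)
    have h3 : (m : ℚ) = p * k := by rw [← hk]; field_simp
    exact h1 ⟨k, by exact_mod_cast h3⟩

lemma pf {N : ℕ} {g : V} {b : ℕ → ℤ} (h : NF C N g b) {p : ℕ} (hp : p.Prime) {δ : ℕ}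
    (h0 : 0 < δ) (hd : ¬ p ∣ δ) : PF C p (b p) (ep N p) (C.act (Vd δ) g) := by
  have hδ : (0 : ℚ) < δ := by exact_mod_cast h0
  have hq : (0 : ℚ) < p := by exact_mod_cast hp.pos
  refine ⟨ext' C fun ν => ?_, ext' C fun ν => ?_⟩
  · rw [C.β_Tr, bVd C _ _ _ hδ]
    by_cases h1 : C.β (ν / δ) g = 0
    · rw [h1, mul_zero, mul_zero]
    · obtain ⟨n, hn⟩ := nat_of C h h1
      have : ν * 1 = ((δ * n : ℤ) : ℚ) := by push_cast; rw [← hn]; field_simp
      rw [this, ee_int, one_mul]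
  · rw [map_sum, map_sub, map_smul, map_smul, bVd C _ _ _ hq, bVd C _ _ _ (pow_pos hq 2)]
    simp only [C.β_Tr, ← Finset.sum_mul, bVd C _ _ _ hδ, smul_eq_mul]
    by_cases h1 : ∃ k : ℕ, ν / δ = k
    · obtain ⟨k, hk⟩ := h1
      have e0 : ν = ((δ * k : ℕ) : ℚ) := by push_cast; rw [← hk]; field_simp
      have e1 : ν / p / δ = (k : ℚ) / p := by rw [← hk]; field_simp
      have e2 : ν / p ^ 2 / δ = (k : ℚ) / p / p := by rw [← hk]; field_simp
      rw [hk, e1, e2]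
      conv_lhs => rw [e0, geo p hp.pos]
      by_cases h2 : p ∣ k
      · obtain ⟨m, rfl⟩ := h2
        have e3 : ((p * m : ℕ) : ℚ) / p = m := by push_cast; field_simp
        rw [if_pos (Dvd.dvd.mul_left (dvd_mul_right p m) δ), e3, bdiv C h hp.pos, h.co, h.co,
          h.coef.rel p m hp]
        unfold ep
        split_ifs <;> push_cast <;> ring
      · have h3 : C.β ((k : ℚ) / p) g = 0 := by rw [bdiv C h hp.pos, dn, if_neg h2]; simp
        have h4 : C.β ((k : ℚ) / p / p) g = 0 := by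
          by_contra h5
          obtain ⟨m, hm⟩ := nat_of C h h5
          have h6 : (k : ℚ) = p * (p * m) := by rw [← hm]; field_simp
          exact h2 ⟨p * m, by exact_mod_cast h6⟩
        rw [if_neg fun h5 => h2 ((hp.dvd_mul.1 h5).resolve_left hd), h3, h4]
        simp
    · have h2 : C.β (ν / δ) g = 0 := by
        by_contra h5
        exact h1 (nat_of C h h5)
      have h3 : C.β (ν / p / δ) g = 0 := by
        by_contra h5
        obtain ⟨m, hm⟩ := nat_of C h h5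
        exact h1 ⟨p * m, by push_cast; rw [← hm]; field_simp⟩
      have h4 : C.β (ν / p ^ 2 / δ) g = 0 := by
        by_contra h5
        obtain ⟨m, hm⟩ := nat_of C h h5
        exact h1 ⟨p ^ 2 * m, by push_cast; rw [← hm]; field_simp⟩
      rw [h2, h3, h4]
      simp

lemma pf_zero (p : ℕ) (a ε : ℤ) : PF C p a ε 0 := ⟨by simp, by simp⟩

lemma pf_add {p : ℕ} {a ε : ℤ} {X Y : V} (hX : PF C p a ε X) (hY : PF C p a ε Y) :
    PF C p a ε (X + Y) := by
  refine ⟨by rw [map_add, hX.1, hY.1], ?_⟩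
  simp only [map_add, Finset.sum_add_distrib, hX.2, hY.2, smul_add]
  abel

lemma pf_smul {p : ℕ} {a ε : ℤ} {X : V} (k : ℂ) (hX : PF C p a ε X) :
    PF C p a ε (k • X) := by
  refine ⟨by rw [map_smul, hX.1], ?_⟩
  simp only [map_smul, ← Finset.smul_sum, hX.2, smul_sub]
  rw [smul_comm k (a : ℂ), smul_comm k (ε : ℂ)]

lemma pf_sum {p : ℕ} {a ε : ℤ} (s : Finset ℕ) (X : ℕ → V) (h : ∀ i ∈ s, PF C p a ε (X i)) :
    PF C p a ε (∑ i ∈ s, X i) :=
  Finset.sum_induction X (PF C p a ε) (fun _ _ => pf_add C) (pf_zero C p a ε) h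

lemma lc {N : ℕ} {b : ℕ → ℤ} (h : Coef N b) {p : ℕ} (hp : p.Prime) :
    Lc p (N.factorization p) (b p) (ep N p) := by
  have k : ∀ j, p ^ j ∣ N ↔ j ≤ N.factorization p := fun j => hp.pow_dvd_iff_le_factorization h.pos.ne'
  have k1 : p ∣ N ↔ 1 ≤ N.factorization p := by rw [← k, pow_one]
  refine ⟨fun e => ⟨if_neg fun h1 => ?_, h.le p hp⟩, fun e => ⟨if_pos (k1.2 e.ge), h.one' p hp e⟩,
    fun e => ⟨if_pos (k1.2 (by omega)), h.two p hp ((k 2).2 e)⟩⟩
  have := k1.1 h1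
  omega

end SLx

open SLx in
theorem sl : S_SL := by
  intro V _ _ C N g b p h hp
  refine ⟨lc h.coef hp, fun δ h0 hd => pf C h hp h0 hd, fun c hc => ⟨fun i => ?_, fun d t hr => ?_⟩⟩
  · have hs : ∀ δ ∈ (slc p i c).support, δ ≠ 0 ∧ δ.factorization p = i := fun δ hδ => by
      rw [slc, Finsupp.support_filter, Finset.mem_filter] at hδ
      exact ⟨fun e => hc (e ▸ hδ.1), hδ.2⟩
    refine ⟨∑ δ ∈ (slc p i c).support, ((slc p i c δ : ℤ) : ℂ) • C.act (Vd (ordCompl[p] δ : ℕ)) g,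
      pf_sum C _ _ fun δ hδ => pf_smul C _ (pf C h hp (Nat.ordCompl_pos p (hs δ hδ).1)
        (Nat.not_dvd_ordCompl hp (hs δ hδ).1)), ?_⟩
    unfold CS.comb Finsupp.sum
    rw [map_sum]
    refine Finset.sum_congr rfl fun δ hδ => ?_
    have h1 : (0 : ℚ) < (ordCompl[p] δ : ℕ) := by exact_mod_cast Nat.ordCompl_pos p (hs δ hδ).1
    have h2 : (0 : ℚ) < (p : ℚ) ^ i := pow_pos (by exact_mod_cast hp.pos) i
    have h3 : (δ : ℚ) = (ordCompl[p] δ : ℕ) * (p : ℚ) ^ i := by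
      have := Nat.ordProj_mul_ordCompl_eq_self δ p
      rw [(hs δ hδ).2] at this ⊢
      rw [mul_comm]
      exact_mod_cast this.symm
    have h4 : Vd (δ : ℚ) = Vd (ordCompl[p] δ : ℕ) * Vd ((p : ℚ) ^ i) := by
      ext
      · simpa [Vd] using h3
      all_goals simp [Vd]
    rw [map_smul, ← C.act_mul _ _ _ (by simpa using h1) (by simpa using h2), ← h4]
  · have e : c = ∑ i ∈ Finset.range (t + 1), slc p (d + i) c := by
      ext δ
      rw [Finsupp.finsetSum_apply]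
      simp only [slc, Finsupp.filter_apply]
      by_cases h1 : δ ∈ c.support
      · obtain ⟨h2, h3⟩ := hr δ h1
        rw [Finset.sum_eq_single (δ.factorization p - d), if_pos (by omega)]
        · intro j _ hj
          exact if_neg (by omega)
        · intro hj
          exact absurd (Finset.mem_range.2 (by omega)) hj
      · rw [Finsupp.notMem_support_iff.1 h1]
        simp
    conv_lhs => rw [e]
    exact map_sum (AddMonoidHom.mk' (C.comb g) (comb_add C g)) _ _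

end

end Pool.Agent.MP_b2c033_nt.UT
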