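import Pool.Agent.MP_b2c033_nt.UT.Spec

/-! The inductive step of the tree lemma without spread. -/

namespace Pool.Agent.MP_b2c033_nt.UT

open Pool.Agent.MP_b2c033_nt.U CongruenceSubgroup

noncomputable section

namespace ST0x

/-- the local factor -/
def ff (p d e σ j : ℕ) : ℝ := lo p d e j + (p : ℝ) ^ σ * ti p d e j + hi p d e j

theorem ptw {p d e s K : ℕ} (hp : p.Prime) (hK : d + e ≤ K) (c v : ℤ)
    (h1 : v ≤ low p c d e + s) (h2 : ¬ Mid p c d e → v = low p c d e) :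
    (p : ℝ) ^ v ≤ ff p d e (if e = 0 then 0 else s) (jv p K c) := by
  have hp1 : (1 : ℝ) ≤ p := by exact_mod_cast hp.one_le
  have e1 := ht_eq (p := p) (k := K) (i := d) (by omega) c
  have e2 := ht_eq (p := p) (k := K) (i := d + e) hK c
  unfold Mid at h2
  unfold low at h1 h2
  rw [e1, e2] at h1 h2
  generalize jv p K c = j at *
  push_cast at h1 h2
  unfold ff lo ti hi
  rcases lt_trichotomy (2 * j) (2 * d + e) with h | h | h
  · rw [if_pos h, if_neg h.ne, if_neg h.not_gt, mul_zero, add_zero, add_zero,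
      show v = 2 * (j : ℤ) - d - e by omega]
  · rw [if_neg h.not_lt, if_pos h, if_neg h.not_gt, zero_add, add_zero, ← pow_add,
      ← zpow_natCast]
    refine zpow_le_zpow_right₀ hp1 ?_
    split_ifs with he
    · omega
    · omega
  · rw [if_neg h.not_gt, if_neg h.ne', if_pos h, mul_zero, add_zero, zero_add,
      show v = (d : ℤ) by omega, zpow_natCast]

theorem av_ff (hL : S_LOC) (hN : S_NUM) {p K d e s L : ℕ} {a ε : ℤ} (hp : p.Prime) (h0 : 0 < L)
    (hd : p ^ K ∣ L) (hK : d + e ≤ K) (hc : Lc p e a ε) :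
    Av ⊤ L (fun γ => ff p d e (if e = 0 then 0 else s) (jv p K (γ 1 0))) =
      ((Mp p e s : ℚ) : ℝ) := by
  obtain ⟨h1, h2⟩ := hL p K d e L hp h0 hd hK
  by_cases he : e = 0
  · have h3 := h2 he
    have h4 : ((Mp p e s : ℚ) : ℝ) = 1 := by simp [Mp, he]
    rw [h4, ← h3, if_pos he]
    simp only [ff, pow_zero, one_mul]
  · have he' : 1 ≤ e := Nat.one_le_iff_ne_zero.2 he
    obtain ⟨h3, h4, h5⟩ := h1 he'
    rw [if_neg he, (hN p e s a ε hp hc).1 he']
    unfold ff
    rw [Av_add ⊤ h0, Av_add ⊤ h0, Av_mul_left ⊤ h0, h3, h4, h5]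
    ring

end ST0x

open ST0x in
theorem st0 : S_ST0 := by
  intro hSL hL hN V _ _ C N g b s _ hg _ _ K L p Q D c h0 hp hpQ hQ hdv hK hcl D' hD'
  obtain ⟨n, hlev, hpt, h3, h4⟩ := hcl
  have hA : AQ K (insert p Q) = p ^ K * AQ K Q := Finset.prod_insert hpQ
  have hM : MQ N s (insert p Q) = ((Mp p (N.factorization p) (s p) : ℚ) : ℝ) * MQ N s Q :=
    Finset.prod_insert hpQ
  have hc := (hSL V C N g b p hg hp).1
  have hpos := (hN p _ (s p) _ _ hp hc).2.1
  have hd1 : p ^ K ∣ L := (Dvd.intro _ hA.symm).trans hdv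
  have hd2 : AQ K Q ∣ L := (Dvd.intro_left _ hA.symm).trans hdv
  have hco : (p ^ K).Coprime (AQ K Q) := Nat.Coprime.prod_right fun q hq =>
    Nat.coprime_pow_primes _ _ hp (hQ q hq) fun e => hpQ (e ▸ hq)
  have hl1 := lev_jv hp K
    (ff p (D p) (N.factorization p) (if N.factorization p = 0 then 0 else s p))
  have hav : Av ⊤ L (fun γ => ff p (D p) (N.factorization p)
      (if N.factorization p = 0 then 0 else s p) (jv p K (γ 1 0)) * n γ) =
      ((Mp p (N.factorization p) (s p) : ℚ) : ℝ) * Av ⊤ L n := by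
    rw [Av_ind' h0 hd1 hd2 hco hl1 hlev, av_ff hL hN hp h0 hd1 hK hc]
  refine ⟨fun γ => ff p (D p) (N.factorization p)
      (if N.factorization p = 0 then 0 else s p) (jv p K (γ 1 0)) * n γ, ?_, ?_, ?_, ?_⟩
  · intro γ δ hδ
    have e1 := hl1.mono (Dvd.intro _ hA.symm) γ δ hδ
    have e2 := hlev.mono (Dvd.intro_left _ hA.symm) γ δ hδ
    simp only at e1 ⊢
    rw [e1, e2]
  · intro γ
    obtain ⟨ν, h5, h6, h7⟩ := hpt γ
    refine ⟨ν, h5, fun q hq hqQ => ?_, ?_⟩
    · rw [Finset.mem_insert, not_or] at hqQ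
      have := h6 q hq hqQ.2
      unfold OBq at this ⊢
      rwa [hD' q hqQ.1]
    · obtain ⟨h8, h9⟩ := h6 p hp hpQ
      have h10 := ptw hp hK _ _ h8 h9
      rw [Finset.prod_insert hpQ]
      exact mul_le_mul h10 h7 (Finset.prod_nonneg fun q _ => by positivity)
        (le_trans (by positivity) h10)
  · rw [hav, hM, mul_assoc, mul_assoc]
    exact mul_le_mul_of_nonneg_left h3 hpos.le
  · refine h4.imp_right ?_
    rintro ⟨q, hq, h5⟩
    refine ⟨q, hq, ?_⟩
    rw [hav, hM]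
    have := mul_le_mul_of_nonneg_left h5 hpos.le
    linarith

end

end Pool.Agent.MP_b2c033_nt.UT
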