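import Pool.Agent.MP_b2c033_nt.UT.Spec

/-! The inductive step of the tree lemma at a prime with spread support. -/

namespace Pool.Agent.MP_b2c033_nt.UT

open Pool.Agent.MP_b2c033_nt.U CongruenceSubgroup
open scoped MatrixGroups InnerProductSpace

noncomputable section

namespace ST1x

theorem low_eq {p K i e : ℕ} (h : i + e ≤ K) (c : ℤ) :
    low p c i e = min (i : ℤ) (2 * jv p K c - i - e) := by
  rw [low, ht_eq (k := K) (by omega), ht_eq (k := K) h]
  omega

theorem val_eq {N p K i : ℕ} {s D : ℕ → ℕ} {γ : SZ} {ν : ℚ} (h : i + N.factorization p ≤ K)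
    (hO : OBq N s (Function.update D p i) γ ν p)
    (hm : 2 * jv p K (γ 1 0) ≠ 2 * i + N.factorization p) :
    padicValRat p ν = min (i : ℤ) (2 * jv p K (γ 1 0) - i - N.factorization p) := by
  have h2 := hO.2
  rw [Function.update_self, low_eq h] at h2
  refine h2 fun hM => ?_
  obtain ⟨h3, h4⟩ := hM
  rw [ht_eq (k := K) (by omega), ht_eq (k := K) h] at h4
  omega

theorem off {N p i q : ℕ} {s D : ℕ → ℕ} {γ : SZ} {ν : ℚ} (h : q ≠ p)
    (hO : OBq N s (Function.update D p i) γ ν q) : OBq N s D γ ν q := by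
  unfold OBq at hO ⊢
  rwa [Function.update_of_ne h] at hO

theorem su {V : Type} [NormedAddCommGroup V] [InnerProductSpace ℂ V] (C : CS V) {N : ℕ} {g : V}
    (hO : OrdA C N g) {c : ℕ →₀ ℤ} (h0 : 0 ∉ c.support) {p : ℕ} (hp : p.Prime) (γ : SZ) (ν : ℚ)
    (i : ℕ) (hs : Su C (C.comb g (slc p i c)) γ ν) (h : ∀ δ ∈ c.support, δ.factorization p ≠ i →
      padicValRat p ν < low p (γ 1 0) (δ.factorization p) (N.factorization p)) :
    Su C (C.comb g c) γ ν := by
  unfold Su at hs ⊢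
  rw [comb_filter C g c fun δ => δ.factorization p = i, map_add, map_add,
    van C hO (c := c.filter fun δ => ¬ δ.factorization p = i) (fun h1 => h0 ?_) hp γ ν
      fun δ hδ => ?_, add_zero]
  · exact hs
  · rw [Finsupp.support_filter] at h1
    exact (Finset.mem_filter.1 h1).1
  · rw [Finsupp.support_filter] at hδ
    exact h δ (Finset.mem_filter.1 hδ).1 (Finset.mem_filter.1 hδ).2

end ST1x

open ST1x in
theorem st1 : S_ST1 := by
  intro hsl hkap htie hloc hnum V _ _ C N g b s hG hNF hA hB K L p d t Q D c hL hp hpQ hQ hAQ h0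
    ht hS hK hex ⟨nb, lb, pb, ab, _⟩ ⟨nt, lt, pt, at', _⟩
  have hp0 : (0 : ℝ) < p := by exact_mod_cast hp.pos
  have eA : AQ K (insert p Q) = p ^ K * AQ K Q := Finset.prod_insert hpQ
  have eM : MQ N s (insert p Q) = ((Mp p (N.factorization p) (s p) : ℚ) : ℝ) * MQ N s Q :=
    Finset.prod_insert hpQ
  have hM : 0 < MQ N s Q := Finset.prod_pos fun q hq =>
    (hnum q _ (s q) _ _ (hQ q hq) (hsl V C N g b q hNF (hQ q hq)).1).2.1
  obtain ⟨hLc, -, hc⟩ := hsl V C N g b p hNF hp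
  obtain ⟨hY, hsum⟩ := hc c h0
  choose Y hY1 hY2 using hY
  obtain ⟨-, hMp, hl1, hnt⟩ := hnum p _ (s p) _ _ hp hLc
  obtain ⟨hk0, hk1⟩ := hnt t ht
  replace hk1 := hk1 hex
  have hnY : ∀ i, ‖C.comb g (slc p i c)‖ = ‖Y i‖ := fun i => by
    rw [hY2, norm_act]
    rw [det_Vd]
    exact pow_pos (by exact_mod_cast hp.pos) _
  have hgram := hkap V C p _ _ _ (fun i => Y (d + i)) d t hp hLc (fun i => hY1 _) ht
  simp only [← hY2] at hgram
  rw [← hsum d t hS.rg, Nat.add_zero, ← hnY, ← hnY] at hgram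
  set e := N.factorization p with he
  let f1 : ℕ → ℝ := fun j => lo p d (e + t) j + ti p d (e + t) j * (1 / 2)
  let f2 : ℕ → ℝ := fun j => hi p d (e + t) j + ti p d (e + t) j * (1 / 2)
  have d1 : p ^ K ∣ L := (Dvd.intro _ eA.symm).trans hAQ
  have d2 : AQ K Q ∣ L := (Dvd.intro_left _ eA.symm).trans hAQ
  have cop : (p ^ K).Coprime (AQ K Q) := Nat.Coprime.prod_right fun q hq =>
    Nat.coprime_pow_primes _ _ hp (hQ q hq) fun h => hpQ (h ▸ hq)
  obtain ⟨a1, a2, a3⟩ := (hloc p K d (e + t) L hp hL d1 (by omega)).1 (by omega)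
  have hav : Av ⊤ L (fun γ => f1 (jv p K (γ 1 0)) * nt γ + f2 (jv p K (γ 1 0)) * nb γ) =
      (w0 p (e + t) + w1 p (e + t) * (1 / 2)) * (Av ⊤ L nt + Av ⊤ L nb) := by
    rw [Av_add ⊤ hL, Av_ind' hL d1 d2 cop (lev_jv hp K f1) lt,
      Av_ind' hL d1 d2 cop (lev_jv hp K f2) lb]
    simp only [f1, f2]
    rw [Av_add ⊤ hL, Av_add ⊤ hL, Av_mul_right ⊤ hL, a1, a2, a3]
    ring
  have hw : 0 ≤ w0 p (e + t) + w1 p (e + t) * (1 / 2) := by
    have h1 : (1 : ℝ) ≤ p := by exact_mod_cast hp.pos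
    have h2 : 0 ≤ (p : ℝ) - 1 := by linarith
    unfold w0 w1
    split_ifs <;> positivity
  have hmain : Av ⊤ L (fun γ => f1 (jv p K (γ 1 0)) * nt γ + f2 (jv p K (γ 1 0)) * nb γ) *
      ‖g‖ ^ 2 ≤ ((loss p e (b p) (s p) : ℚ) : ℝ) * MQ N s (insert p Q) * ‖C.comb g c‖ ^ 2 := by
    rw [hav, eM]
    set S := ‖C.comb g (slc p d c)‖ ^ 2 + ‖C.comb g (slc p (d + t) c)‖ ^ 2 with hSd
    have hS0 : 0 ≤ S := by positivity
    have h1 : (Av ⊤ L nt + Av ⊤ L nb) * ‖g‖ ^ 2 ≤ MQ N s Q * S := by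
      rw [hSd]; linarith
    have h3 : 0 ≤ ((loss p e (b p) (s p) : ℚ) : ℝ) * ((Mp p e (s p) : ℚ) : ℝ) := by
      by_contra hcon
      have := mul_neg_of_pos_of_neg hk0 (not_le.1 hcon)
      linarith
    calc _ = (w0 p (e + t) + w1 p (e + t) * (1 / 2)) * ((Av ⊤ L nt + Av ⊤ L nb) * ‖g‖ ^ 2) := by
          ring
      _ ≤ (w0 p (e + t) + w1 p (e + t) * (1 / 2)) * (MQ N s Q * S) :=
          mul_le_mul_of_nonneg_left h1 hw
      _ ≤ (kap p e (b p) t * (((loss p e (b p) (s p) : ℚ) : ℝ) * ((Mp p e (s p) : ℚ) : ℝ))) *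
          (MQ N s Q * S) := mul_le_mul_of_nonneg_right (by linarith) (by positivity)
      _ = (((loss p e (b p) (s p) : ℚ) : ℝ) * ((Mp p e (s p) : ℚ) : ℝ) * MQ N s Q) *
          (kap p e (b p) t * S) := by ring
      _ ≤ (((loss p e (b p) (s p) : ℚ) : ℝ) * ((Mp p e (s p) : ℚ) : ℝ) * MQ N s Q) *
          ‖C.comb g c‖ ^ 2 := mul_le_mul_of_nonneg_left hgram (mul_nonneg h3 hM.le)
      _ = _ := by ring
  refine ⟨fun γ => f1 (jv p K (γ 1 0)) * nt γ + f2 (jv p K (γ 1 0)) * nb γ, fun γ δ hδ => ?_,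
    fun γ => ?_, hmain.trans ?_, Or.inr ⟨p, hp, hmain⟩⟩
  · rw [eA] at hδ
    have e1 := ((lev_jv hp K fun j => j).mono (Dvd.intro _ rfl)) γ δ hδ
    simp only at e1 ⊢
    rw [e1, (lt.mono (Dvd.intro_left _ rfl)) γ δ hδ, (lb.mono (Dvd.intro_left _ rfl)) γ δ hδ]
  · obtain ⟨νb, sb, ob, qb⟩ := pb γ
    obtain ⟨νt, st, ot, qt⟩ := pt γ
    have ob' : ∀ q : ℕ, q.Prime → q ∉ insert p Q → OBq N s D γ νb q := fun q hq hq' =>
      off (fun h => hq' (h ▸ Finset.mem_insert_self _ _))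
        (ob q hq fun h => hq' (Finset.mem_insert_of_mem h))
    have ot' : ∀ q : ℕ, q.Prime → q ∉ insert p Q → OBq N s D γ νt q := fun q hq hq' =>
      off (fun h => hq' (h ▸ Finset.mem_insert_self _ _))
        (ot q hq fun h => hq' (Finset.mem_insert_of_mem h))
    simp only [Finset.prod_insert hpQ, f1, f2, lo, hi, ti]
    rcases lt_trichotomy (2 * jv p K (γ 1 0)) (2 * d + (e + t)) with h | h | h
    · have v := val_eq (K := K) (by omega) (ot p hp hpQ) (by omega)
      rw [← he] at v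
      refine ⟨νt, su C hA h0 hp γ νt _ st fun δ hδ hne => ?_, ot', ?_⟩
      · have := hS.rg δ hδ
        rw [low_eq (K := K) (by omega), v]
        omega
      · rw [if_pos h, if_neg h.ne, if_neg (by omega),
          show padicValRat p νt = 2 * (jv p K (γ 1 0) : ℤ) - d - (e + t : ℕ) by omega]
        have := mul_le_mul_of_nonneg_left qt
          (zpow_pos hp0 (2 * (jv p K (γ 1 0) : ℤ) - d - (e + t : ℕ))).le
        linarith
    · have vt := val_eq (K := K) (by omega) (ot p hp hpQ) (by omega)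
      have vb := val_eq (K := K) (by omega) (ob p hp hpQ) (by omega)
      rw [← he] at vt vb
      replace vt : padicValRat p νt = d := by omega
      replace vb : padicValRat p νb = d := by omega
      have hj : γ 1 0 ≠ 0 ∧ 2 * padicValInt p (γ 1 0) = 2 * d + (e + t) := by
        unfold jv at h
        split_ifs at h with h1
        · omega
        · exact ⟨h1, by omega⟩
      have T := fun ν => htie V C N g b s hG hNF hA hB c p d t γ ν h0 hp ht hS.rg hj.1 hj.2 hex
      rw [if_neg (by omega), if_pos h, if_neg (by omega)]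
      have hpd := (pow_pos hp0 d).le
      rcases le_total (nt γ) (nb γ) with h1 | h1
      · refine ⟨νt, T νt vt (Or.inr st), ot', ?_⟩
        rw [vt, zpow_natCast]
        have h2 := mul_le_mul_of_nonneg_left qt hpd
        have h3 := mul_le_mul_of_nonneg_left h1 hpd
        linarith
      · refine ⟨νb, T νb vb (Or.inl sb), ob', ?_⟩
        rw [vb, zpow_natCast]
        have h2 := mul_le_mul_of_nonneg_left qb hpd
        have h3 := mul_le_mul_of_nonneg_left h1 hpd
        linarith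
    · have v := val_eq (K := K) (by omega) (ob p hp hpQ) (by omega)
      rw [← he] at v
      refine ⟨νb, su C hA h0 hp γ νb _ sb fun δ hδ hne => ?_, ob', ?_⟩
      · have := hS.rg δ hδ
        rw [low_eq (K := K) (by omega), v]
        omega
      · rw [if_neg (by omega), if_neg h.ne', if_pos h, show padicValRat p νb = d by omega,
          zpow_natCast]
        have := mul_le_mul_of_nonneg_left qb (pow_pos hp0 d).le
        linarith
  · have h1 : 0 ≤ MQ N s (insert p Q) * ‖C.comb g c‖ ^ 2 := by rw [eM]; positivity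
    rw [mul_assoc]
    exact mul_le_of_le_one_left h1 hl1

end

end Pool.Agent.MP_b2c033_nt.UT
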