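import Pool.Agent.MP_b2c033_nt.UT.Spec

/-! No cancellation between the extreme slices at a tie. -/

namespace Pool.Agent.MP_b2c033_nt.UT

open Pool.Agent.MP_b2c033_nt.U CongruenceSubgroup
open scoped MatrixGroups

namespace TIEx

theorem dvd_lev {p x K A s : ℕ} (hp : p.Prime) (hx : x ≠ 0) (h : x ∣ p ^ K * A)
    (hs : x.factorization p ≤ s) : x ∣ p ^ s * A := by
  rw [← Nat.ordProj_mul_ordCompl_eq_self x p]
  exact mul_dvd_mul (pow_dvd_pow p hs) (((Nat.coprime_ordCompl hp hx).symm.pow_right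
    K).dvd_of_dvd_mul_left ((Nat.ordCompl_dvd x p).trans h))

theorem unit {p : ℕ} (hp : Prime (p : ℤ)) {A c₁ q : ℤ} (K : ℕ) (hA : ¬(p : ℤ) ∣ A)
    (h1 : ¬(p : ℤ) ∣ c₁) (h2 : ¬(p : ℤ) ∣ c₁ + q * A) : ∃ u : ℤ,
      IsCoprime u ((p : ℤ) ^ (K + 1) * A) ∧ (p : ℤ) ^ (K + 1) * A ∣ c₁ - (c₁ + q * A) * u := by
  obtain ⟨r, s, e⟩ := (hp.irreducible.coprime_iff_not_dvd.2 fun h =>
    (hp.dvd_or_dvd h).elim h2 hA).pow_left (m := K + 1)
  have d : (p : ℤ) ^ (K + 1) * A ∣ c₁ - (c₁ + q * A) * (1 - A * (s * (q * A))) :=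
    ⟨-(r * q), by linear_combination q * A * e⟩
  refine ⟨_, IsCoprime.mul_right (IsCoprime.pow_right (hp.irreducible.coprime_iff_not_dvd.2
    fun h => h1 ?_).symm) ⟨1, s * (q * A), by ring⟩, d⟩
  simpa using (((dvd_pow_self _ K.succ_ne_zero).mul_right A).trans d).add (h.mul_left (c₁ + q * A))

theorem ee_ne {p d : ℕ} (hp : p.Prime) {ν : ℚ} {w : ℤ} (h0 : ν ≠ 0) (hν : padicValRat p ν = d)
    (hw : ¬(p : ℤ) ∣ w) : ee (ν * (w / p ^ (d + 1))) ≠ 1 := fun h => by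
  have := Fact.mk hp
  obtain ⟨m, hm⟩ := Complex.exp_eq_one_iff.1 h
  have h2 : ((ν * (w / p ^ (d + 1)) : ℚ) : ℂ) = (m : ℂ) :=
    mul_left_cancel₀ Complex.two_pi_I_ne_zero (by rw [hm]; ring)
  have p0 : (p : ℚ) ^ (d + 1) ≠ 0 := pow_ne_zero _ (by exact_mod_cast hp.ne_zero)
  have h3 : ν * w = m * p ^ (d + 1) := by
    rw [← div_eq_iff p0, mul_div_assoc]
    exact_mod_cast h2
  have w0 : (w : ℚ) ≠ 0 := by exact_mod_cast fun e : w = 0 => hw (e ▸ dvd_zero _)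
  have h4 := congrArg (padicValRat p) h3
  rw [padicValRat.mul h0 w0, padicValRat.mul (left_ne_zero_of_mul (h3 ▸ mul_ne_zero h0 w0)) p0,
    padicValRat.pow, padicValRat.self hp.one_lt, hν,
    padicValRat.of_int, padicValRat.of_int, padicValInt.eq_zero_of_not_dvd hw] at h4
  omega

end TIEx

open TIEx

theorem tie : S_TIE := by
  intro FX CO V _ _ C N g b₀ s hG hN hO _ c p d t γ ν h0 hp ht hr hc hj h2 hν hS hX
  have := Fact.mk hp
  have hp' := Nat.prime_iff_prime_int.1 hp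
  have pq : (p : ℚ) ≠ 0 := by exact_mod_cast hp.ne_zero
  have N0 := hN.coef.pos.ne'
  have δ0 : ∀ δ ∈ c.support, δ ≠ 0 := fun δ hδ e => h0 (e ▸ hδ)
  have f0 : ∀ (P : ℕ → Prop) [DecidablePred P], ∀ δ ∈ (c.filter P).support,
      δ ∈ c.support ∧ P δ := fun P _ δ hδ => by
    rwa [Finsupp.support_filter, Finset.mem_filter] at hδ
  obtain ⟨k, hk⟩ : ∃ k, padicValInt p (γ 1 0) = d + k + 1 :=
    ⟨padicValInt p (γ 1 0) - d - 1, by omega⟩
  obtain ⟨c₁, hc₁⟩ : (p : ℤ) ^ (d + k + 1) ∣ γ 1 0 := hk ▸ padicValInt_dvd _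
  have n1 : ¬(p : ℤ) ∣ c₁ := fun h => by
    have : (p : ℤ) ^ (d + k + 2) ∣ γ 1 0 := by
      rw [hc₁, pow_succ _ (d + k + 1)]
      exact mul_dvd_mul_left _ h
    have := ((padicValInt_dvd_iff _ _).1 this).resolve_left hc
    omega
  obtain ⟨K, A, nA, hA⟩ := Nat.exists_eq_pow_mul_and_not_dvd
    (mul_ne_zero (Finset.prod_ne_zero_iff.2 δ0) N0) p hp.ne_one
  have A0 : A ≠ 0 := fun e => nA (e ▸ dvd_zero _)
  have nA' : ¬(p : ℤ) ∣ A := mt Int.natCast_dvd_natCast.1 nA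
  have lev : ∀ δ ∈ c.support, ∀ i, δ.factorization p + N.factorization p ≤ i →
      δ * N ∣ p ^ i * A := fun δ hδ i hi => dvd_lev hp (mul_ne_zero (δ0 δ hδ) N0)
    (hA ▸ mul_dvd_mul_right (Finset.dvd_prod_of_mem (fun x => x) hδ) N)
    (by rwa [Nat.factorization_mul (δ0 δ hδ) N0])
  obtain ⟨b, nb, n2⟩ : ∃ b : ℤ, ¬(p : ℤ) ∣ b ∧ ¬(p : ℤ) ∣ c₁ + b * p ^ k * γ 0 0 * A := by
    by_contra! H
    have a1 := H 1 hp'.not_dvd_one
    have a2 := (a1.add (H (-1) (by simpa using hp'.not_dvd_one))).trans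
      (dvd_of_eq (by ring : _ = 2 * c₁))
    have a3 : p = 2 := (Nat.prime_dvd_prime_iff_eq hp Nat.prime_two).1
      (Int.natCast_dvd_natCast.1 ((hp'.dvd_or_dvd a2).resolve_right n1))
    have a4 : k ≠ 0 := fun e => h2 ⟨a3, by omega⟩
    exact n1 ((dvd_add_left ((((dvd_pow_self _ a4).mul_left 1).mul_right _).mul_right _)).1 a1)
  obtain ⟨u, u1, u2⟩ := unit hp' (d + 2 * k + 1) nA' n1 n2
  obtain ⟨v, r', e⟩ := hp'.irreducible.coprime_iff_not_dvd.2 fun h =>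
    (hp'.dvd_or_dvd h).elim n1 n2
  set y : ℤ := b * p ^ (d + 2 * k + 1) * A with hy
  set h : SZ := mkZ 1 0 y 1 (by simp) with hh
  have g0 : (h * γ) 0 0 = γ 0 0 := by simp [hh, Matrix.mul_apply, Fin.sum_univ_two]
  have g1 : (h * γ) 1 0 = y * γ 0 0 + γ 1 0 := by simp [hh, Matrix.mul_apply, Fin.sum_univ_two]
  have hX' : C.β ν (C.act (ofZ (h * γ)) (C.comb g c)) = 0 := by
    refine not_not.1 fun q => ((CO V C hG _ (p ^ (d + 2 * k + 1 + 1) * A) u γ (h * γ) ν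
      (Nat.pos_of_ne_zero (mul_ne_zero (pow_ne_zero _ hp.ne_zero) A0))
      ((FX V C N g b₀ c hN h0).2.2 _ fun δ hδ => lev δ hδ _ ?_)
      (FX V C N g b₀ c hN h0).1).2 (by exact_mod_cast u1) (by rw [g0]) ?_).1 q hX
    · have := hr δ hδ
      omega
    · rw [g1, Int.modEq_iff_dvd, hc₁, hy]
      push_cast
      exact (u2.mul_left ((p : ℤ) ^ (d + k + 1))).trans (dvd_of_eq (by ring))
  have fY : C.act (ofZ h) (C.comb g (c.filter fun δ => ¬δ.factorization p = d + t)) = _ :=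
    (FX V C N g b₀ _ hN fun q => h0 (f0 _ _ q).1).2.1 _ (det_ofZ _) fun δ hδ => by
      obtain ⟨z, hz⟩ := lev δ (f0 _ _ hδ).1 (d + 2 * k + 1) (by
        have := hr δ (f0 _ _ hδ).1
        have := (f0 _ _ hδ).2
        omega)
      have hz' : (p : ℚ) ^ (d + 2 * k + 1) * A = δ * N * z := by exact_mod_cast hz
      refine ⟨1, 0, b * z, 1, by simp [hh, ofZ], by simp [hh, ofZ], ?_, by simp [hh, ofZ]⟩
      simp only [hh, ofZ, mkZ_10, hy]
      push_cast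
      linear_combination b * hz'
  obtain ⟨x, hx⟩ : ∃ x : ℚ, x = (-b * r' * A : ℤ) / p ^ (d + 1) := ⟨_, rfl⟩
  have hx' : x * p ^ (d + 1) = -b * r' * A := by
    rw [hx, div_mul_cancel₀ _ (pow_ne_zero _ pq)]
    push_cast
    rfl
  have cq : (γ 1 0 : ℚ) = p ^ (d + k + 1) * c₁ := by exact_mod_cast hc₁
  have yq : (y : ℚ) = b * p ^ (d + 2 * k + 1) * A := by exact_mod_cast hy
  have eq : (v : ℚ) * p + r' * (c₁ * (c₁ + b * p ^ k * γ 0 0 * A)) = 1 := by exact_mod_cast e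
  have dq : (γ 0 0 : ℚ) * γ 1 1 - γ 0 1 * γ 1 0 = 1 := by exact_mod_cast detZ γ
  set m : Mt := ⟨1 - x * γ 0 0 * γ 1 0 - y * x * γ 0 0 ^ 2, x * γ 0 0 ^ 2,
    -(x * γ 1 0 ^ 2) - y * (1 + x * γ 0 0 * γ 1 0), 1 + x * γ 0 0 * γ 1 0⟩ with hm
  have dm : m.det = 1 := by
    simp only [hm, Mt.det]
    ring
  have fT : C.act m (C.comb g (slc p (d + t) c)) = C.comb g (slc p (d + t) c) :=
    (FX V C N g b₀ _ hN fun q => h0 (f0 _ _ q).1).2.1 _ dm fun δ hδ => by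
      obtain ⟨z, hz⟩ := lev δ (f0 _ _ hδ).1 (d + 2 * k + 2) (by
        have := (f0 _ _ hδ).2
        omega)
      have hz' : (p : ℚ) ^ (d + 2 * k + 2) * A = δ * N * z := by exact_mod_cast hz
      obtain ⟨w, hw⟩ := (hp.pow_dvd_iff_le_factorization (δ0 δ (f0 _ _ hδ).1)).2
        (show d + 1 ≤ _ by have := (f0 _ _ hδ).2; omega)
      have hw' : (δ : ℚ) = p ^ (d + 1) * w := by exact_mod_cast hw
      refine ⟨1 + b * r' * A * γ 0 0 * p ^ k * c₁ + b ^ 2 * r' * A ^ 2 * p ^ (2 * k) * γ 0 0 ^ 2,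
        -b * r' * A * w * γ 0 0 ^ 2, -(b * v * z), 1 - b * r' * A * γ 0 0 * p ^ k * c₁,
        ?_, ?_, ?_, ?_⟩ <;> simp only [hm, cq, yq] <;> push_cast
      · linear_combination -(γ 0 0 * p ^ k * c₁ + b * p ^ (2 * k) * A * γ 0 0 ^ 2 : ℚ) * hx'
      · linear_combination (w * γ 0 0 ^ 2 : ℚ) * hx' + (x * γ 0 0 ^ 2 : ℚ) * hw'
      · linear_combination -(p ^ (d + 2 * k + 1) * c₁ *
          (c₁ + b * p ^ k * γ 0 0 * A) : ℚ) * hx' + b * p ^ (d + 2 * k + 1) * A * eq - b * v * hz'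
      · linear_combination (γ 0 0 * p ^ k * c₁ : ℚ) * hx'
  have em : m * ofZ (h * γ) = ofZ γ * Tr x := by
    rw [ofZ_mul]
    ext <;> simp only [hm, hh, ofZ, Tr, Mt.mul_a, Mt.mul_b, Mt.mul_c, Mt.mul_d, mkZ_00, mkZ_01,
      mkZ_10, mkZ_11] <;> push_cast
    · ring
    · linear_combination x * γ 0 0 * dq
    · ring
    · linear_combination x * γ 1 0 * dq
  have eT : C.β ν (C.act (ofZ (h * γ)) (C.comb g (slc p (d + t) c))) =
      ee (ν * x) * C.β ν (C.act (ofZ γ) (C.comb g (slc p (d + t) c))) := by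
    rw [← C.β_Tr, ← C.act_mul _ _ _ (by simp) (by simp), ← em,
      C.act_mul _ _ _ (by simp [dm]) (by simp), fT]
  have sp : _ = C.comb g (slc p (d + t) c) + _ :=
    comb_filter C g c fun δ => δ.factorization p = d + t
  rw [sp, map_add, map_add] at hX hX'
  rw [ofZ_mul h, C.act_mul _ _ (C.comb g (c.filter fun δ => ¬δ.factorization p = d + t))
    (by simp) (by simp), fY, ← ofZ_mul] at hX'
  have bt : C.β ν (C.act (ofZ γ) (C.comb g (slc p (d + t) c))) = 0 := by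
    by_contra q
    refine ee_ne hp (fun e => q (C.β_neg ν _ e.le)) hν (w := -b * r' * A) (fun h => ?_)
      (mul_right_cancel₀ q ?_)
    · rcases hp'.dvd_or_dvd h with h | h
      · rcases hp'.dvd_or_dvd h with h | h
        · exact nb (dvd_neg.1 h)
        · exact hp'.not_dvd_one (e ▸ (dvd_mul_left _ v).add (h.mul_right _))
      · exact nA' h
    · rw [← hx, ← eT, one_mul]
      exact add_right_cancel (hX'.trans hX.symm)
  refine hS.elim (fun q => q ?_) fun q => q bt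
  have sq := comb_filter C g (c.filter fun δ => ¬δ.factorization p = d + t)
    fun δ => δ.factorization p = d
  have e1 : (c.filter fun δ => ¬δ.factorization p = d + t).filter
      (fun δ => δ.factorization p = d) = slc p d c := by
    ext δ
    simp only [slc, Finsupp.filter_apply]
    split_ifs <;> first | rfl | omega
  rw [sq, e1, map_add, map_add, bt, van C hO (c := Finsupp.filter _ _)
    (fun q => ?_) hp γ ν fun δ hδ => ?_] at hX
  · simpa using hX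
  · simp [Finsupp.notMem_support_iff.1 h0] at q
  · simp only [Finsupp.support_filter, Finset.mem_filter] at hδ
    have := hr δ hδ.1.1
    simp only [low, U.ht, if_neg hc, hν]
    omega

end Pool.Agent.MP_b2c033_nt.UT
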