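import Pool.Agent.MP_b2c033_nt.UT.Spec

/-! The half translate. -/

namespace Pool.Agent.MP_b2c033_nt.UT

open Pool.Agent.MP_b2c033_nt.U
open scoped MatrixGroups InnerProductSpace

namespace ZZx

variable {V : Type} [NormedAddCommGroup V] [InnerProductSpace ℂ V] (C : CS V)

lemma vv {r s : ℚ} (hr : 0 < r) (hs : 0 < s) (v : V) :
    C.act (Vd s) (C.act (Vd r) v) = C.act (Vd (r * s)) v := by
  rw [← C.act_mul _ _ _ (by simpa using hr) (by simpa using hs)]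
  congr 2
  ext <;> simp [Vd]

lemma trn {g : V} (h : C.act (Tr 1) g = g) (k : ℕ) : C.act (Tr k) g = g := by
  induction k with
  | zero => exact_mod_cast C.act_sc 1 g one_ne_zero
  | succ k ih =>
    have e : Tr ((k + 1 : ℕ) : ℚ) = Tr 1 * Tr k := by ext <;> simp [Tr]
    rw [e, C.act_mul _ _ _ (by simp) (by simp), h, ih]

lemma half {g : V} (h : C.act (Tr 1) g = g) {δ : ℕ} (hδ : Odd δ) {r : ℚ} (hr : 0 < r) :
    C.act (Tr (1 / 2) * Vd (δ * r)) g = C.act (Tr (1 / 2) * Vd r) (C.act (Vd δ) g) := by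
  have h0 : (0 : ℚ) < δ := by exact_mod_cast hδ.pos
  obtain ⟨k, hk⟩ := hδ
  have e : Vd δ * (Tr (1 / 2) * Vd r) = Tr k * (Tr (1 / 2) * Vd (δ * r)) := by
    ext <;> simp [Tr, Vd, hk]
    ring
  rw [← C.act_mul _ _ _ (by simpa using h0) (by simpa [Mt.det_mul] using hr), e,
    C.act_mul (Tr k) _ _ (by simp) (by simpa [Mt.det_mul] using mul_pos h0 hr), trn C h]

lemma cusp {d : ℕ} (γ : SZ) (h0 : γ 1 0 ≠ 0) (hv : padicValInt 2 (γ 1 0) = d + 1) : ∃ γ' : SZ,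
    γ 1 0 = 2 ^ (d + 1) * γ' 1 0 ∧ Tr (1 / 2) * Vd (2 ^ d) * ofZ γ =
      ofZ γ' * ⟨1 / 2, 0, 0, 1 / 2⟩ * Vd (2 ^ (d + 2)) := by
  have hd := detZ γ
  obtain ⟨c, hc⟩ : ((2 : ℕ) : ℤ) ^ (d + 1) ∣ γ 1 0 :=
    (padicValInt_dvd_iff _ _).2 (Or.inr hv.ge)
  have h1 : ¬ ((2 : ℕ) : ℤ) ^ (d + 2) ∣ γ 1 0 := fun h => by
    rcases (padicValInt_dvd_iff _ _).1 h with h | h
    · exact h0 h
    · omega
  rw [Nat.cast_ofNat] at hc h1
  have h2 : Odd c := Int.not_even_iff_odd.1 fun ⟨k, hk⟩ => h1 ⟨k, by rw [hc, hk]; ring⟩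
  have h3 : Odd (γ 0 0) := Int.not_even_iff_odd.1 fun ⟨k, hk⟩ => by
    have : 2 * (k * γ 1 1 - γ 0 1 * (2 ^ d * c)) = 1 := by rw [hk, hc] at hd; linear_combination hd
    omega
  obtain ⟨m, hm⟩ := h3.add_odd h2
  have ha : γ 0 0 = 2 * m - c := by omega
  refine ⟨mkZ m (γ 1 1 + γ 0 1 * 2 ^ (d + 1)) c (2 * γ 1 1) (by rw [ha, hc] at hd; linear_combination hd), hc, ?_⟩
  ext <;> simp [Tr, Vd, ofZ, ha, hc] <;> ring

end ZZx

open ZZx in
theorem zz : S_ZZ := by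
  intro hG hS V _ _ C N g b s _ hN _ _ δ d hδ
  have h0 : (0 : ℚ) < δ := by exact_mod_cast hδ.pos
  have hs := (hS V C N g b 2 hN Nat.prime_two).2.1
  have hY := hs δ hδ.pos (by simpa [← even_iff_two_dvd] using hδ)
  have hg : C.act (Tr 1) g = g := by
    have h1 := (hs 1 one_pos (by norm_num)).1
    have h2 : C.act (Vd ((1 : ℕ) : ℚ)) g = g := by exact_mod_cast C.act_sc 1 g one_ne_zero
    rwa [h2] at h1
  have hv : ∀ i : ℕ, C.act (Vd (δ * 2 ^ i : ℕ)) g = C.act (Vd (2 ^ i)) (C.act (Vd δ) g) := fun i => by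
    rw [vv C h0 (by positivity)]
    push_cast
    rfl
  have hh : C.act (Tr (1 / 2) * Vd (δ * 2 ^ d : ℕ)) g =
      C.act (Tr (1 / 2) * Vd (2 ^ d)) (C.act (Vd δ) g) := by
    rw [← half C hg hδ (by positivity)]
    push_cast
    rfl
  refine ⟨fun i k => ?_, ?_, fun γ h1 h2 => ?_⟩
  · have h1 := hG V C 2 (b 2) (ep N 2) _ _ i k Nat.prime_two
      (by unfold ep; split_ifs <;> simp) hY hY
    rw [C.inner_act (Vd δ) _ _ (by simpa using h0), inner_self_eq_norm_sq_to_K, Nat.cast_ofNat] at h1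
    rw [hv, hv, h1]
    push_cast
    rfl
  · have h1 := congrArg (C.act (Vd (2 ^ d))) hY.2
    have h2 : C.act (Tr (((0 : ℕ) : ℚ) / ((2 : ℕ) : ℚ))) (C.act (Vd δ) g) = C.act (Vd δ) g := by
      simpa [Tr] using C.act_sc 1 (C.act (Vd δ) g) one_ne_zero
    rw [Finset.sum_range_succ, Finset.sum_range_one, h2, map_add, map_sub, map_smul, map_smul,
      Nat.cast_one, Nat.cast_ofNat, vv C (r := 2) two_pos (by positivity),
      vv C (r := 2 ^ 2) (by positivity) (by positivity), ← pow_succ', ← pow_add, add_comm 2 d] at h1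
    rw [hh, hv, hv, hv, C.act_mul _ _ _ (by simp) (by simp), h1]
  · obtain ⟨γ', e1, e2⟩ := cusp γ h1 h2
    refine ⟨γ', e1, fun ν => ?_⟩
    have hd : (0 : ℚ) < (⟨1 / 2, 0, 0, 1 / 2⟩ : Mt).det := by norm_num [Mt.det]
    unfold Su
    rw [hh, ← C.act_mul _ (ofZ γ) _ (by simp [Mt.det_mul]) (by simp), e2,
      C.act_mul _ (Vd _) _ (by simpa [Mt.det_mul] using hd) (by simp),
      C.act_mul _ _ _ (by simp) hd, C.act_sc _ _ (by norm_num), C.β_Vd _ _ _ (by positivity)]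
    simp

end Pool.Agent.MP_b2c033_nt.UT
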