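import Pool.Agent.MP_b2c033_nt.UT.BASE
import Pool.Agent.MP_b2c033_nt.UT.COL
import Pool.Agent.MP_b2c033_nt.UT.FIX
import Pool.Agent.MP_b2c033_nt.UT.GR
import Pool.Agent.MP_b2c033_nt.UT.KAP
import Pool.Agent.MP_b2c033_nt.UT.LOC
import Pool.Agent.MP_b2c033_nt.UT.MAIN
import Pool.Agent.MP_b2c033_nt.UT.NUM
import Pool.Agent.MP_b2c033_nt.UT.SL
import Pool.Agent.MP_b2c033_nt.UT.ST0
import Pool.Agent.MP_b2c033_nt.UT.ST1
import Pool.Agent.MP_b2c033_nt.UT.ST2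
import Pool.Agent.MP_b2c033_nt.UT.TIE
import Pool.Agent.MP_b2c033_nt.UT.ZZ

/-! Assembly of block T. -/

namespace Pool.Agent.MP_b2c033_nt.U

theorem s_Tree : S_Tree :=
  UT.main UT.base (UT.st0 UT.sl UT.loc UT.num)
    (UT.st1 UT.sl (UT.kapp UT.gr) (UT.tie UT.fix UT.col) UT.loc UT.num)
    (UT.st2 UT.sl (UT.zz UT.gr UT.sl) UT.loc)

end Pool.Agent.MP_b2c033_nt.U
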