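import Pool.Agent.MP_b2c033_nt.UT.Spec

/-! The base of the induction: a single dilate. -/

namespace Pool.Agent.MP_b2c033_nt.UT

open Pool.Agent.MP_b2c033_nt.U

theorem base : BASE := by
  intro V _ _ C N g b s _ _ _ hB K L D c hL h
  obtain ⟨δ, hδ⟩ := Finsupp.support_nonempty_iff.2 h.ne
  have p0 : ∀ x ∈ c.support, x ≠ 0 := fun x hx e => h.pos (e ▸ hx)
  have δ0 : 0 < δ := Nat.pos_of_ne_zero (p0 δ hδ)
  have u : c.support ⊆ {δ} := fun x hx => Finset.mem_singleton.2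
    (Nat.eq_of_factorization_eq (p0 x hx) (p0 δ hδ) fun q => by
      by_cases hq : q.Prime
      · rw [h.cst x hx q hq (Finset.notMem_empty q), h.cst δ hδ q hq (Finset.notMem_empty q)]
      · rw [Nat.factorization_eq_zero_of_not_prime _ hq,
          Nat.factorization_eq_zero_of_not_prime _ hq])
  have k0 : c δ ≠ 0 := Finsupp.mem_support_iff.1 hδ
  have e : C.comb g c = ((c δ : ℤ) : ℂ) • C.act (Vd δ) g := by
    conv_lhs => rw [Finsupp.support_subset_singleton.1 u]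
    exact comb_single C g δ _
  refine ⟨fun _ => 1, fun _ _ _ => rfl, fun γ => ?_, ?_, .inl ?_⟩
  · obtain ⟨ν, h1, h2⟩ := hB δ γ δ0
    refine ⟨ν, ?_, fun q hq hQ => ?_, by simp⟩
    · rw [Su, e, map_smul, map_smul, smul_eq_mul]
      exact mul_ne_zero (Int.cast_ne_zero.2 k0) h1
    · rw [OBq, ← h.cst δ hδ q hq hQ]
      exact h2 q hq
  · have k1 : (1 : ℝ) ≤ |((c δ : ℤ) : ℝ)| := by exact_mod_cast Int.one_le_abs k0
    rw [Av_const ⊤ hL, MQ, Finset.prod_empty, e, norm_smul, norm_act C _ (by simpa using δ0),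
      Complex.norm_intCast, one_mul, one_mul]
    exact pow_le_pow_left₀ (norm_nonneg _) (le_mul_of_one_le_left (norm_nonneg _) k1) 2
  · refine ⟨c δ, 0, δ, zero_le_one, δ0, e.trans ?_⟩
    rw [show Tr (((0 : ℕ) : ℚ) / 2) * Vd δ = Vd δ by ext <;> simp [Tr, Vd]]

end Pool.Agent.MP_b2c033_nt.UT
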