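import Pool.Agent.MP_b2c033_nt.UT.Spec

/-! The exceptional case at the prime two. -/

namespace Pool.Agent.MP_b2c033_nt.UT

open Pool.Agent.MP_b2c033_nt.U CongruenceSubgroup
open scoped MatrixGroups InnerProductSpace

noncomputable section

namespace ST2x

theorem fac2 {δ : ℕ} (hδ : Odd δ) (k : ℕ) : (δ * 2 ^ k).factorization 2 = k := by
  rw [Nat.factorization_mul hδ.pos.ne' (by positivity), Finsupp.add_apply,
    Nat.factorization_eq_zero_of_not_dvd hδ.not_two_dvd_nat, Nat.prime_two.factorization_pow]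
  simp

theorem facq {δ : ℕ} (hδ : Odd δ) (k : ℕ) {q : ℕ} (hq : q ≠ 2) :
    (δ * 2 ^ k).factorization q = δ.factorization q := by
  rw [Nat.factorization_mul hδ.pos.ne' (by positivity), Finsupp.add_apply,
    Nat.prime_two.factorization_pow, Finsupp.single_eq_of_ne hq, add_zero]

theorem shape {N K : ℕ} {D : ℕ → ℕ} {c : ℕ →₀ ℤ} (h : Adm N K {2} D c) :
    ∃ δ : ℕ, Odd δ ∧ (∀ q : ℕ, q.Prime → q ≠ 2 → δ.factorization q = D q) ∧
      ∀ x ∈ c.support, x = δ * 2 ^ x.factorization 2 := by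
  obtain ⟨y, hy⟩ := Finsupp.support_nonempty_iff.2 h.ne
  have y0 : y ≠ 0 := fun e => h.pos (e ▸ hy)
  have ho : Odd (y / 2 ^ y.factorization 2) :=
    Nat.odd_iff.2 (Nat.two_dvd_ne_zero.1 (Nat.not_dvd_ordCompl Nat.prime_two y0))
  have hq : ∀ q : ℕ, q.Prime → q ≠ 2 → (y / 2 ^ y.factorization 2).factorization q = D q := by
    intro q hq h2
    rw [← facq ho (y.factorization 2) h2, mul_comm, Nat.ordProj_mul_ordCompl_eq_self]
    exact h.cst y hy q hq (by simpa using h2)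
  refine ⟨_, ho, hq, fun x hx => ?_⟩
  refine Nat.eq_of_factorization_eq (fun e => h.pos (e ▸ hx))
    (mul_ne_zero ho.pos.ne' (by positivity)) fun q => ?_
  by_cases hp : q.Prime
  · by_cases h2 : q = 2
    · rw [h2, fac2 ho]
    · rw [facq ho _ h2, hq q hp h2]
      exact h.cst x hx q hp (by simpa using h2)
  · rw [Nat.factorization_eq_zero_of_not_prime _ hp, Nat.factorization_eq_zero_of_not_prime _ hp]

theorem slc_eq {δ : ℕ} (hδ : Odd δ) {c : ℕ →₀ ℤ}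
    (h : ∀ x ∈ c.support, x = δ * 2 ^ x.factorization 2) (k : ℕ) :
    slc 2 k c = Finsupp.single (δ * 2 ^ k) (c (δ * 2 ^ k)) := by
  ext x
  rw [slc, Finsupp.filter_apply, Finsupp.single_apply]
  by_cases e : δ * 2 ^ k = x
  · rw [if_pos e, ← e, if_pos (fac2 hδ k)]
  · rw [if_neg e]
    split_ifs with h1
    · by_contra h2
      exact e (by rw [← h1]; exact (h x (Finsupp.mem_support_iff.2 h2)).symm)
    · rfl

theorem int3 {x y : ℤ} (hx : x ≠ 0) (hy : y ≠ 0) (h : x - y ≠ 0) : 3 ≤ x ^ 2 - x * y + y ^ 2 := by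
  have s1 : ∀ z : ℤ, z ≠ 0 → 1 ≤ z ^ 2 := fun z hz => by
    have : 0 < z ^ 2 := by positivity
    omega
  have s2 : ∀ z : ℤ, z ≠ 0 → z % 2 = 0 → 4 ≤ z ^ 2 := fun z hz h2 => by
    obtain ⟨w, rfl⟩ : ∃ w, z = 2 * w := ⟨z / 2, by omega⟩
    have := s1 w (by omega)
    nlinarith
  have a1 := s1 x hx
  have a2 := s1 y hy
  have a3 := s1 _ h
  rcases (by omega : x % 2 = 0 ∨ y % 2 = 0 ∨ (x - y) % 2 = 0) with e | e | e
  · have := s2 x hx e
    nlinarith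
  · have := s2 y hy e
    nlinarith
  · have := s2 _ h e
    nlinarith

theorem val2 (d : ℕ) {ν : ℚ} (hν : ν ≠ 0) (q : ℕ) (hq : q.Prime) :
    padicValRat q (2 ^ (d + 2) * ν) = (if q = 2 then (d + 2 : ℤ) else 0) + padicValRat q ν := by
  have := Fact.mk hq
  rw [padicValRat.mul (by positivity) hν, padicValRat.pow]
  congr 1
  have e : (2 : ℚ) = ((2 : ℕ) : ℚ) := by norm_num
  split_ifs with h
  · subst h
    rw [e, padicValRat.self one_lt_two]; simp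
  · rw [e, padicValRat.of_nat, padicValNat.eq_zero_of_not_dvd
      (fun hd => h ((Nat.prime_dvd_prime_iff_eq hq Nat.prime_two).1 hd))]
    simp

theorem vint {d : ℕ} {c c' : ℤ} (h0 : c ≠ 0) (h : c = 2 ^ (d + 1) * c') (q : ℕ) (hq : q.Prime) :
    padicValInt q c = (if q = 2 then d + 1 else 0) + padicValInt q c' := by
  have := Fact.mk hq
  have h1 : c' ≠ 0 := by
    rintro rfl
    exact h0 (by rw [h, mul_zero])
  rw [h, padicValInt.mul (by positivity) h1]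
  congr 1
  rw [padicValInt, Int.natAbs_pow]
  change padicValNat q (2 ^ (d + 1)) = _
  split_ifs with e
  · subst e
    exact padicValNat.prime_pow _
  · exact padicValNat.eq_zero_of_not_dvd fun hd =>
      e ((Nat.prime_dvd_prime_iff_eq hq Nat.prime_two).1 (hq.dvd_of_dvd_pow hd))

section

variable {V : Type} [NormedAddCommGroup V] [InnerProductSpace ℂ V]

theorem norm3 (u v w : V) (ρ r₁ r₂ : ℝ) (x y z : ℤ) (h0 : ⟪u, u⟫_ℂ = ρ) (h1 : ⟪v, v⟫_ℂ = ρ)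
    (h2 : ⟪w, w⟫_ℂ = ρ) (h3 : ⟪u, v⟫_ℂ = r₁ * ρ) (h4 : ⟪v, u⟫_ℂ = r₁ * ρ)
    (h5 : ⟪v, w⟫_ℂ = r₁ * ρ) (h6 : ⟪w, v⟫_ℂ = r₁ * ρ) (h7 : ⟪u, w⟫_ℂ = r₂ * ρ)
    (h8 : ⟪w, u⟫_ℂ = r₂ * ρ) :
    ‖(x : ℂ) • u + (y : ℂ) • v + (z : ℂ) • w‖ ^ 2 =
      (x ^ 2 + y ^ 2 + z ^ 2 + 2 * r₁ * (x * y + y * z) + 2 * r₂ * x * z) * ρ := by
  have h : ((‖(x : ℂ) • u + (y : ℂ) • v + (z : ℂ) • w‖ ^ 2 : ℝ) : ℂ) =
      ⟪(x : ℂ) • u + (y : ℂ) • v + (z : ℂ) • w, (x : ℂ) • u + (y : ℂ) • v + (z : ℂ) • w⟫_ℂ := by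
    rw [inner_self_eq_norm_sq_to_K]; simp
  simp only [inner_add_left, inner_add_right, inner_smul_left, inner_smul_right, map_intCast,
    h0, h1, h2, h3, h4, h5, h6, h7, h8] at h
  apply Complex.ofReal_injective
  rw [h]
  push_cast
  ring

variable (C : CS V)

theorem fin (hl : S_LOC) {N : ℕ} {g : V} {s : ℕ → ℕ} (hA : OrdA C N g) (hO : OrdB C N g s)
    {K L d t δ : ℕ} {D : ℕ → ℕ} {c : ℕ →₀ ℤ} (hL : 0 < L) (hd : AQ K {2} ∣ L)
    (ha : Adm N K {2} D c) (ht1 : 1 ≤ t) (hs : Spr 2 d t c) (he : N.factorization 2 + t = 2)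
    (hδ : Odd δ) (hD : ∀ q : ℕ, q.Prime → q ≠ 2 → δ.factorization q = D q)
    (hx : ∀ x ∈ c.support, x = δ * 2 ^ x.factorization 2) (τ : ℕ)
    (tie : ∀ γ : SZ, γ 1 0 ≠ 0 → padicValInt 2 (γ 1 0) = d + 1 → ∃ ν, Su C (C.comb g c) γ ν ∧
      (∀ q : ℕ, q.Prime → q ≠ 2 → OBq N s D γ ν q) ∧ padicValRat 2 ν = d + τ) :
    ∃ n : SZ → ℝ, Lev (AQ K {2}) n ∧
      (∀ γ, ∃ ν, Su C (C.comb g c) γ ν ∧
        (∀ q : ℕ, q.Prime → q ∉ ({2} : Finset ℕ) → OBq N s D γ ν q) ∧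
        ∏ q ∈ ({2} : Finset ℕ), (q : ℝ) ^ padicValRat q ν ≤ n γ) ∧
      Av ⊤ L n = (2 + 2 ^ τ) / 6 := by
  have hAQ : AQ K {2} = 2 ^ K := by simp [AQ]
  rw [hAQ] at hd ⊢
  have hK : d + 2 ≤ K := by
    obtain ⟨x, h1⟩ := Finsupp.support_nonempty_iff.2 hs.top
    rw [slc, Finsupp.support_filter, Finset.mem_filter] at h1
    have := ha.bd x h1.1 2
    omega
  have side : ∀ (k : ℕ) (γ : SZ) (m : ℤ), slc 2 k c ≠ 0 →
      low 2 (γ 1 0) k (N.factorization 2) = m →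
      (∀ i, d ≤ i → i ≤ d + t → i ≠ k → m < low 2 (γ 1 0) i (N.factorization 2)) →
      ∃ ν, Su C (C.comb g c) γ ν ∧
        (∀ q : ℕ, q.Prime → q ∉ ({2} : Finset ℕ) → OBq N s D γ ν q) ∧ padicValRat 2 ν = m := by
    intro k γ m h1 h2 h3
    obtain ⟨ν, h4, h5⟩ := hO (δ * 2 ^ k) γ (mul_pos hδ.pos (by positivity))
    have h6 : padicValRat 2 ν = m := by
      have := (h5 2 Nat.prime_two).2 fun hm => by
        have := hm.1
        omega
      rwa [fac2 hδ, h2] at this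
    refine ⟨ν, ?_, fun q hq h2 => ?_, h6⟩
    · unfold Su
      rw [comb_filter C g c fun x => x.factorization 2 = k, map_add, map_add,
        van C hA (c := c.filter fun x => ¬ x.factorization 2 = k) (p := 2)
          (fun h => ha.pos (by rw [Finsupp.support_filter, Finset.mem_filter] at h; exact h.1))
          Nat.prime_two γ ν (fun x hx => by
            rw [Finsupp.support_filter, Finset.mem_filter] at hx
            rw [h6]
            exact h3 _ (hs.rg x hx.1).1 (hs.rg x hx.1).2 hx.2), add_zero]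
      change C.β ν (C.act (ofZ γ) (C.comb g (slc 2 k c))) ≠ 0
      rw [slc_eq hδ hx k] at h1 ⊢
      rw [comb_single, map_smul, map_smul]
      refine smul_ne_zero ?_ h4
      exact_mod_cast fun e => h1 (by rw [e, Finsupp.single_zero])
    · have h7 : q ≠ 2 := by simpa using h2
      have := h5 q hq
      rwa [facq hδ k h7, hD q hq h7] at this
  refine ⟨fun γ => lo 2 d 2 (jv 2 K (γ 1 0)) + 2 ^ τ * ti 2 d 2 (jv 2 K (γ 1 0)) +
    hi 2 d 2 (jv 2 K (γ 1 0)),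
    lev_jv Nat.prime_two K fun j => lo 2 d 2 j + 2 ^ τ * ti 2 d 2 j + hi 2 d 2 j, fun γ => ?_, ?_⟩
  · have hlow : ∀ i, i ≤ d + t → low 2 (γ 1 0) i (N.factorization 2) =
        min (i : ℤ) (2 * jv 2 K (γ 1 0) - i - N.factorization 2) := by
      intro i hi
      rw [low, ht_eq (k := K) (by omega), ht_eq (k := K) (by omega)]
      push_cast
      omega
    simp only [Finset.prod_singleton, lo, ti, hi]
    rcases lt_trichotomy (2 * jv 2 K (γ 1 0)) (2 * d + 2) with h | h | h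
    · obtain ⟨ν, h1, h2, h3⟩ := side (d + t) γ (2 * jv 2 K (γ 1 0) - d - (2 : ℕ)) hs.top
        (by rw [hlow _ le_rfl]; omega) fun i _ _ _ => by rw [hlow i (by omega)]; omega
      refine ⟨ν, h1, h2, ?_⟩
      rw [if_pos h, if_neg (by omega), if_neg (by omega), h3]
      simp
    · have h0 : γ 1 0 ≠ 0 := fun e => by
        rw [jv, if_pos e] at h
        omega
      obtain ⟨ν, h1, h2, h3⟩ := tie γ h0 (by
        rw [jv, if_neg h0] at h
        omega)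
      refine ⟨ν, h1, fun q hq h4 => h2 q hq (by simpa using h4), ?_⟩
      rw [if_neg (by omega), if_pos h, if_neg (by omega), h3, ← Nat.cast_add, zpow_natCast, pow_add]
      simp [mul_comm]
    · obtain ⟨ν, h1, h2, h3⟩ := side d γ d hs.bot
        (by rw [hlow _ (by omega)]; omega) fun i _ _ _ => by rw [hlow i (by omega)]; omega
      refine ⟨ν, h1, h2, ?_⟩
      rw [if_neg (by omega), if_neg (by omega), if_pos h, h3]
      simp
  · obtain ⟨h1, h2, h3⟩ := (hl 2 K d 2 L Nat.prime_two hL hd hK).1 one_le_two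
    rw [Av_add ⊤ hL, Av_add ⊤ hL, Av_mul_left ⊤ hL, h1, h2, h3, w0, w1]
    norm_num
    ring

/-- the analysis at the tie -/
theorem tie {N : ℕ} {g : V} {s : ℕ → ℕ} (hA : OrdA C N g) (hO : OrdB C N g s)
    {d δ : ℕ} {D : ℕ → ℕ} (he : N.factorization 2 ≤ 1) (hδ : Odd δ)
    (hD : ∀ q : ℕ, q.Prime → q ≠ 2 → δ.factorization q = D q) {X Z : V} {x y z : ℤ}
    (hX : X = (x : ℂ) • C.act (Vd (δ * 2 ^ d : ℕ)) g + (y : ℂ) • C.act (Vd (δ * 2 ^ (d + 1) : ℕ)) g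
      + (z : ℂ) • Z) (hy : N.factorization 2 = 1 → y = 0) {γ γ' : SZ} (h0 : γ 1 0 ≠ 0)
    (hv : padicValInt 2 (γ 1 0) = d + 1) (h1 : γ 1 0 = 2 ^ (d + 1) * γ' 1 0)
    (h2 : ∀ ν : ℚ, Su C Z γ (2 ^ (d + 2) * ν) ↔ Su C (C.act (Vd δ) g) γ' ν) (τ : ℕ)
    (hτ : (x ≠ 0 ∧ τ = 0) ∨ (x = 0 ∧ y ≠ 0 ∧ τ = 1) ∨
      (x = 0 ∧ y = 0 ∧ z ≠ 0 ∧ τ + N.factorization 2 = 2)) :
    ∃ ν, Su C X γ ν ∧ (∀ q : ℕ, q.Prime → q ≠ 2 → OBq N s D γ ν q) ∧
      padicValRat 2 ν = d + τ := by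
  have h0' : γ' 1 0 ≠ 0 := fun e => h0 (by rw [h1, e, mul_zero])
  have hv' : padicValInt 2 (γ' 1 0) = 0 := by
    have := vint h0 h1 2 Nat.prime_two
    rw [if_pos rfl] at this
    omega
  have f0 : δ.factorization 2 = 0 := Nat.factorization_eq_zero_of_not_dvd hδ.not_two_dvd_nat
  have l' : low 2 (γ' 1 0) (δ.factorization 2) (N.factorization 2) = -N.factorization 2 := by
    rw [low, ht, ht, if_neg h0', if_neg h0', hv', f0]
    push_cast
    omega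
  have l2 : ∀ i : ℕ, low 2 (γ 1 0) i (N.factorization 2) =
      min (i : ℤ) (2 * d + 2 - i - N.factorization 2) := by
    intro i
    rw [low, ht, ht, if_neg h0, if_neg h0, hv]
    push_cast
    omega
  have pos : ∀ {Y : V} {σ : SZ} {ν : ℚ}, Su C Y σ ν → ν ≠ 0 := fun h e =>
    h (C.β_neg _ _ e.le)
  have vz : ∀ ν : ℚ, padicValRat 2 ν < d + 2 - N.factorization 2 →
      C.β ν (C.act (ofZ γ) Z) = 0 := by
    intro ν hν
    by_contra hne
    have e : ν = 2 ^ (d + 2) * (ν / 2 ^ (d + 2)) := by field_simp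
    have h3 := (h2 (ν / 2 ^ (d + 2))).1 (by rw [← e]; exact hne)
    have h4 := hA δ γ' _ hδ.pos h3 2 Nat.prime_two
    have h5 := val2 d (pos h3) 2 Nat.prime_two
    rw [← e, if_pos rfl] at h5
    rw [l'] at h4
    omega
  have ob : ∀ k : ℕ, ∃ ν, Su C (C.act (Vd (δ * 2 ^ k : ℕ)) g) γ ν ∧
      (∀ q : ℕ, q.Prime → q ≠ 2 → OBq N s D γ ν q) ∧
      padicValRat 2 ν = min (k : ℤ) (2 * d + 2 - k - N.factorization 2) := by
    intro k
    obtain ⟨ν, h4, h5⟩ := hO (δ * 2 ^ k) γ (mul_pos hδ.pos (by positivity))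
    refine ⟨ν, h4, fun q hq h7 => ?_, ?_⟩
    · have := h5 q hq
      rwa [facq hδ k h7, hD q hq h7] at this
    · have := (h5 2 Nat.prime_two).2 fun hm => by
        have := hm.1
        omega
      rwa [fac2 hδ, l2] at this
  unfold Su
  rw [hX]
  simp only [map_add, map_smul, smul_eq_mul]
  rcases hτ with ⟨hx, rfl⟩ | ⟨rfl, hy', rfl⟩ | ⟨rfl, rfl, hz, hτ⟩
  · obtain ⟨ν, h3, h4, h5⟩ := ob d
    refine ⟨ν, ?_, h4, by omega⟩
    have h6 : (y : ℂ) * C.β ν (C.act (ofZ γ) (C.act (Vd (δ * 2 ^ (d + 1) : ℕ)) g)) = 0 := by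
      by_cases e1 : N.factorization 2 = 1
      · rw [hy e1]; simp
      · refine mul_eq_zero.2 (Or.inr (by_contra fun hne => ?_))
        have := hA _ γ ν (mul_pos hδ.pos (by positivity)) hne 2 Nat.prime_two
        rw [fac2 hδ, l2] at this
        omega
    rw [h6, vz ν (by omega), mul_zero, add_zero, add_zero]
    exact mul_ne_zero (by exact_mod_cast hx) h3
  · obtain ⟨ν, h3, h4, h5⟩ := ob (d + 1)
    have e0 : N.factorization 2 = 0 := by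
      by_contra e
      exact hy' (hy (by omega))
    refine ⟨ν, ?_, h4, by omega⟩
    rw [vz ν (by omega), mul_zero, add_zero, Int.cast_zero, zero_mul, zero_add]
    exact mul_ne_zero (by exact_mod_cast hy') h3
  · obtain ⟨ν, h3, h4⟩ := hO δ γ' hδ.pos
    refine ⟨2 ^ (d + 2) * ν, ?_, fun q hq h7 => ?_, ?_⟩
    · rw [Int.cast_zero, zero_mul, zero_mul, zero_add, zero_add]
      exact mul_ne_zero (by exact_mod_cast hz) ((h2 ν).2 h3)
    · have h5 := h4 q hq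
      have h6 := vint h0 h1 q hq
      rw [if_neg h7, zero_add] at h6
      have h8 : ∀ i, ht q (γ 1 0) i = ht q (γ' 1 0) i := fun i => by
        rw [ht, ht, if_neg h0, if_neg h0', h6]
      rw [hD q hq h7] at h5
      unfold OBq
      rw [val2 d (pos h3) q hq, if_neg h7, zero_add]
      simpa only [low, Mid, h8] using h5
    · have := (h4 2 Nat.prime_two).2 fun hm => by
        have := hm.1
        omega
      rw [val2 d (pos h3) 2 Nat.prime_two, if_pos rfl, this, l']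
      omega

end

theorem n1 {a x y : ℤ} (ha : a = 1 ∨ a = -1) (hx : x ≠ 0) (hy : y ≠ 0) (h : x + a * y ≠ 0) :
    (3 : ℝ) ≤ x ^ 2 + y ^ 2 + a * x * y := by
  have := int3 (x := x) (y := -(a * y)) hx (by rcases ha with rfl | rfl <;> omega) (by
    rwa [sub_neg_eq_add])
  have h2 : 3 ≤ x ^ 2 + y ^ 2 + a * x * y := by rcases ha with rfl | rfl <;> nlinarith
  exact_mod_cast h2

end ST2x

open ST2x in
theorem st2 : S_ST2 := by
  intro hsl hz hl V _ _ C N g b s hG hN hA hO K L d t D c hL hd ha ht1 hs he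
  obtain ⟨δ, hδ, hD, hx⟩ := shape ha
  obtain ⟨hlc, -, hsl'⟩ := hsl V C N g b 2 hN Nat.prime_two
  obtain ⟨z1, z2, z3⟩ := hz V C N g b s hG hN hA hO δ d hδ
  have hX : C.comb g c = ((c (δ * 2 ^ d) : ℤ) : ℂ) • C.act (Vd (δ * 2 ^ d : ℕ)) g +
      ((c (δ * 2 ^ (d + 1)) : ℤ) : ℂ) • C.act (Vd (δ * 2 ^ (d + 1) : ℕ)) g +
      ((c (δ * 2 ^ (d + 2)) : ℤ) : ℂ) • C.act (Vd (δ * 2 ^ (d + 2) : ℕ)) g := by
    rw [(hsl' c ha.pos).2 d 2 fun x hx => by
      have := hs.rg x hx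
      omega]
    simp only [Finset.sum_range_succ, Finset.sum_range_zero, zero_add, add_zero, slc_eq hδ hx,
      comb_single]
  have c0 : c (δ * 2 ^ d) ≠ 0 := fun e => hs.bot (by rw [slc_eq hδ hx, e, Finsupp.single_zero])
  have ct : c (δ * 2 ^ (d + t)) ≠ 0 := fun e =>
    hs.top (by rw [slc_eq hδ hx, e, Finsupp.single_zero])
  have hn := norm3 _ _ _ (‖g‖ ^ 2) (rr 2 (b 2) (ep N 2) 1) (rr 2 (b 2) (ep N 2) 2)
    (c (δ * 2 ^ d)) (c (δ * 2 ^ (d + 1))) (c (δ * 2 ^ (d + 2)))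
    (by rw [z1 d d]; simp [rr]) (by rw [z1 (d + 1) (d + 1)]; simp [rr])
    (by rw [z1 (d + 2) (d + 2)]; simp [rr])
    (by rw [z1 d (d + 1), show Nat.dist d (d + 1) = 1 by simp [Nat.dist]])
    (by rw [z1 (d + 1) d, show Nat.dist (d + 1) d = 1 by simp [Nat.dist]])
    (by rw [z1 (d + 1) (d + 2), show Nat.dist (d + 1) (d + 2) = 1 by simp [Nat.dist]])
    (by rw [z1 (d + 2) (d + 1), show Nat.dist (d + 2) (d + 1) = 1 by simp [Nat.dist]])
    (by rw [z1 d (d + 2), show Nat.dist d (d + 2) = 2 by simp [Nat.dist]])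
    (by rw [z1 (d + 2) d, show Nat.dist (d + 2) d = 2 by simp [Nat.dist]])
  rw [← hX] at hn
  have hρ : 0 ≤ ‖g‖ ^ 2 := by positivity
  have key : ∀ (x y z : ℤ) (τ : ℕ), C.comb g c = (x : ℂ) • C.act (Vd (δ * 2 ^ d : ℕ)) g +
      (y : ℂ) • C.act (Vd (δ * 2 ^ (d + 1) : ℕ)) g +
      (z : ℂ) • C.act (Tr (1 / 2) * Vd (δ * 2 ^ d : ℕ)) g → (N.factorization 2 = 1 → y = 0) →
      ((x ≠ 0 ∧ τ = 0) ∨ (x = 0 ∧ y ≠ 0 ∧ τ = 1) ∨
        (x = 0 ∧ y = 0 ∧ z ≠ 0 ∧ τ + N.factorization 2 = 2)) →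
      (2 + 2 ^ τ) / 6 * ‖g‖ ^ 2 ≤ MQ N s {2} * ‖C.comb g c‖ ^ 2 →
      ((x = 0 ∧ y = 0) ∨ (2 + 2 ^ τ) / 6 * ‖g‖ ^ 2 ≤
        ((loss 2 (N.factorization 2) (b 2) (s 2) : ℚ) : ℝ) * MQ N s {2} * ‖C.comb g c‖ ^ 2) →
      Claim C N g b s K L {2} D c := by
    intro x y z τ h1 h2 h3 h4 h5
    obtain ⟨n, a1, a2, a3⟩ := fin C hl hA hO hL hd ha ht1 hs he hδ hD hx τ fun γ h0 hv => by
      obtain ⟨γ', b1, b2⟩ := z3 γ h0 hv
      exact tie C hA hO (by omega) hδ hD h1 h2 h0 hv b1 b2 τ h3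
    refine ⟨n, a1, a2, by rwa [a3], h5.imp ?_ fun h => ⟨2, Nat.prime_two, by rwa [a3]⟩⟩
    rintro ⟨rfl, rfl⟩
    refine ⟨z, 1, δ * 2 ^ d, le_rfl, mul_pos hδ.pos (by positivity), ?_⟩
    rw [h1]
    simp
  have hMQ : MQ N s {2} = ((Mp 2 (N.factorization 2) (s 2) : ℚ) : ℝ) := by simp [MQ]
  set c₀ := c (δ * 2 ^ d) with hc₀
  set c₁ := c (δ * 2 ^ (d + 1)) with hc₁
  set c₂ := c (δ * 2 ^ (d + 2)) with hc₂
  set a := b 2 with hadef
  rcases (by omega : (N.factorization 2 = 1 ∧ t = 1) ∨ (N.factorization 2 = 0 ∧ t = 2)) with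
    ⟨e1, rfl⟩ | ⟨e0, rfl⟩
  · obtain ⟨ε0, ha1⟩ := hlc.2.1 e1
    have c2 : c₂ = 0 := by
      by_contra hne
      have := hs.rg _ (Finsupp.mem_support_iff.2 hne)
      rw [fac2 hδ] at this
      omega
    have aa : (a : ℂ) * a = 1 := by rcases ha1 with h | h <;> simp [h]
    have hrel : C.comb g c = ((c₀ + a * c₁ : ℤ) : ℂ) • C.act (Vd (δ * 2 ^ d : ℕ)) g +
        ((0 : ℤ) : ℂ) • C.act (Vd (δ * 2 ^ (d + 1) : ℕ)) g +
        ((a * c₁ : ℤ) : ℂ) • C.act (Tr (1 / 2) * Vd (δ * 2 ^ d : ℕ)) g := by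
      rw [hX, c2]
      rw [ε0] at z2
      push_cast at z2 ⊢
      linear_combination (norm := module) (-(a : ℂ) * c₁) • z2 -
        ((c₁ : ℂ) * aa) • C.act (Vd ((δ : ℚ) * 2 ^ (d + 1))) g
    have hM : MQ N s {2} = 2 / 3 := by rw [hMQ, e1, Mp]; norm_num
    have hl' : ((loss 2 (N.factorization 2) a (s 2) : ℚ) : ℝ) = 1 / 3 := by
      rw [e1, loss]; norm_num
    have hq : ‖C.comb g c‖ ^ 2 = (c₀ ^ 2 + c₁ ^ 2 + a * c₀ * c₁) * ‖g‖ ^ 2 := by
      rw [hn, c2, ε0, rr]; push_cast; ring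
    by_cases hD0 : c₀ + a * c₁ = 0
    · have h1 : (1 : ℝ) ≤ c₀ ^ 2 + c₁ ^ 2 + a * c₀ * c₁ := by
        have h2 : 0 < c₁ ^ 2 := by positivity
        have h3 : 1 ≤ c₀ ^ 2 + c₁ ^ 2 + a * c₀ * c₁ := by
          have : c₀ ^ 2 + a * c₀ * c₁ = 0 := by linear_combination c₀ * hD0
          omega
        exact_mod_cast h3
      refine key _ _ _ 1 hrel (fun _ => rfl) (Or.inr (Or.inr ⟨hD0, rfl, ?_, by omega⟩)) ?_
        (Or.inl ⟨hD0, rfl⟩)
      · exact mul_ne_zero (by omega) ct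
      · rw [hM, hq]; nlinarith
    · have h1 := n1 ha1 c0 ct hD0
      refine key _ _ _ 0 hrel (fun _ => rfl) (Or.inl ⟨hD0, rfl⟩) ?_ (Or.inr ?_)
      · rw [hM, hq]; nlinarith
      · rw [hM, hq, hl']; nlinarith
  · obtain ⟨ε1, ha2⟩ := hlc.1 e0
    have hrel : C.comb g c = ((c₀ - c₂ : ℤ) : ℂ) • C.act (Vd (δ * 2 ^ d : ℕ)) g +
        ((c₁ + a * c₂ : ℤ) : ℂ) • C.act (Vd (δ * 2 ^ (d + 1) : ℕ)) g +
        ((-c₂ : ℤ) : ℂ) • C.act (Tr (1 / 2) * Vd (δ * 2 ^ d : ℕ)) g := by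
      rw [hX]
      rw [ε1] at z2
      push_cast at z2 ⊢
      linear_combination (norm := module) (c₂ : ℂ) • z2
    have hM : MQ N s {2} = 1 := by rw [hMQ, e0, Mp]; norm_num
    have hq : ‖C.comb g c‖ ^ 2 = (c₀ ^ 2 + c₁ ^ 2 + c₂ ^ 2 + 2 * a / 3 * (c₀ * c₁ + c₁ * c₂) +
        (a ^ 2 / 3 - 1) * c₀ * c₂) * ‖g‖ ^ 2 := by
      rw [hn, ε1]; simp only [rr]; push_cast; ring
    have l1 : 1 / ((3 : ℝ) - |(a : ℝ)|) ≤ ((loss 2 (N.factorization 2) a (s 2) : ℚ) : ℝ) := by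
      rw [e0, loss, if_pos rfl]
      push_cast
      refine le_trans (le_of_eq ?_) (le_max_left _ _)
      norm_num
    have l2 : 3 / (2 * (9 - (a : ℝ) ^ 2)) ≤ ((loss 2 (N.factorization 2) a (s 2) : ℚ) : ℝ) := by
      rw [e0, loss, if_pos rfl, if_pos rfl]
      push_cast
      exact (le_max_left _ _).trans (le_max_right _ _)
    have a4 : (a : ℝ) ^ 2 ≤ 4 := by
      have : a ^ 2 ≤ 4 := by
        have h := abs_le.1 ha2
        push_cast at h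
        nlinarith [h.1, h.2]
      exact_mod_cast this
    have a2 : |(a : ℝ)| ≤ 2 := by exact_mod_cast ha2
    rw [hM] at key
    generalize ((loss 2 (N.factorization 2) a (s 2) : ℚ) : ℝ) = ls at key l1 l2
    have s2 : (1 : ℝ) ≤ (c₂ : ℝ) ^ 2 := by
      have : 0 < c₂ ^ 2 := by positivity
      exact_mod_cast this
    by_cases hD0 : c₀ - c₂ = 0
    · have e02 : (c₀ : ℝ) = c₂ := by exact_mod_cast sub_eq_zero.1 hD0
      by_cases hD1 : c₁ + a * c₂ = 0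
      · have e1 : (c₁ : ℝ) = -(a * c₂) := by exact_mod_cast eq_neg_of_add_eq_zero_left hD1
        refine key _ _ _ 2 hrel (by omega)
          (Or.inr (Or.inr ⟨hD0, hD1, neg_ne_zero.2 ct, by omega⟩)) ?_ (Or.inl ⟨hD0, hD1⟩)
        rw [hq, e02, e1]
        nlinarith
      · obtain ⟨y, hy⟩ : ∃ y : ℝ, y = c₁ + a * c₂ := ⟨_, rfl⟩
        have s1 : (1 : ℝ) ≤ y ^ 2 := by
          have : 0 < (c₁ + a * c₂) ^ 2 := by positivity
          rw [hy]
          exact_mod_cast this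
        have hq' : ‖C.comb g c‖ ^ 2 = (y ^ 2 + c₂ ^ 2 - 2 * a / 3 * c₂ * y) * ‖g‖ ^ 2 := by
          rw [hq, e02, hy]; ring
        have h1 : 2 / 3 * (3 - |(a : ℝ)|) ≤ y ^ 2 + c₂ ^ 2 - 2 * a / 3 * c₂ * y := by
          rcases abs_cases (a : ℝ) with ⟨h, h'⟩ | ⟨h, h'⟩
          · rw [h] at a2 ⊢
            nlinarith [mul_nonneg h' (sq_nonneg (y - c₂)),
              mul_nonneg (by linarith : (0 : ℝ) ≤ 3 - a) (by linarith : (0 : ℝ) ≤ y ^ 2 + c₂ ^ 2 - 2)]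
          · rw [h] at a2 ⊢
            nlinarith [mul_nonneg (neg_nonneg.2 h'.le) (sq_nonneg (y + c₂)),
              mul_nonneg (by linarith : (0 : ℝ) ≤ 3 + a) (by linarith : (0 : ℝ) ≤ y ^ 2 + c₂ ^ 2 - 2)]
        rw [div_le_iff₀ (by linarith)] at l1
        have l0 : 0 ≤ ls := by nlinarith
        refine key _ _ _ 1 hrel (by omega) (Or.inr (Or.inl ⟨hD0, hD1, rfl⟩)) ?_ (Or.inr ?_)
        · rw [hq']; nlinarith
        · rw [hq', mul_one, ← mul_assoc]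
          refine mul_le_mul_of_nonneg_right ?_ hρ
          nlinarith [mul_le_mul_of_nonneg_left h1 l0]
    · have s3 : (3 : ℝ) ≤ (c₀ : ℝ) ^ 2 - c₀ * c₂ + c₂ ^ 2 := by exact_mod_cast int3 c0 ct hD0
      have h1 : (9 - (a : ℝ) ^ 2) / 3 ≤ c₀ ^ 2 + c₁ ^ 2 + c₂ ^ 2 + 2 * a / 3 * (c₀ * c₁ + c₁ * c₂) +
          (a ^ 2 / 3 - 1) * c₀ * c₂ := by
        nlinarith [sq_nonneg ((c₁ : ℝ) + a / 3 * (c₀ + c₂)),
          mul_nonneg (by linarith : (0 : ℝ) ≤ 9 - a ^ 2) (sub_nonneg.2 s3)]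
      rw [div_le_iff₀ (by linarith)] at l2
      have l0 : 0 ≤ ls := by nlinarith
      refine key _ _ _ 0 hrel (by omega) (Or.inl ⟨hD0, rfl⟩) ?_ (Or.inr ?_)
      · rw [hq]; nlinarith
      · rw [hq, mul_one, ← mul_assoc]
        refine mul_le_mul_of_nonneg_right ?_ hρ
        nlinarith [mul_le_mul_of_nonneg_left h1 l0]

end

end Pool.Agent.MP_b2c033_nt.UT
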