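import Pool.Agent.MP_b2c033_nt.U.Spec
import Pool.Agent.MP_b2c033_nt.U.Ind

/-! Rows for block T (the tree lemma). -/

namespace Pool.Agent.MP_b2c033_nt.UT

open Pool.Agent.MP_b2c033_nt.U CongruenceSubgroup
open scoped MatrixGroups InnerProductSpace

noncomputable section

section

variable {V : Type} [NormedAddCommGroup V] [InnerProductSpace ℂ V] (C : CS V)

/-- `ν` is in the support of the expansion of `X` at the cusp `γ` -/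
def Su (X : V) (γ : SZ) (ν : ℚ) : Prop := C.β ν (C.act (ofZ γ) X) ≠ 0

/-- the Hecke relation at `p` as an identity of vectors -/
def PF (p : ℕ) (a ε : ℤ) (Y : V) : Prop := C.act (Tr 1) Y = Y ∧
  ∑ i ∈ Finset.range p, C.act (Tr ((i : ℚ) / p)) Y =
    (a : ℂ) • C.act (Vd (p : ℚ)) Y - (ε : ℂ) • C.act (Vd ((p : ℚ) ^ 2)) Y

/-- the slice of valuation `i` at `p` -/
def slc (p i : ℕ) (c : ℕ →₀ ℤ) : ℕ →₀ ℤ := c.filter fun δ => δ.factorization p = i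

theorem comb_add (g : V) (c c' : ℕ →₀ ℤ) : C.comb g (c + c') = C.comb g c + C.comb g c' := by
  unfold CS.comb
  exact Finsupp.sum_add_index' (fun _ => by simp) fun _ _ _ => by push_cast; rw [add_smul]

theorem comb_single (g : V) (δ : ℕ) (k : ℤ) :
    C.comb g (Finsupp.single δ k) = (k : ℂ) • C.act (Vd δ) g := by
  unfold CS.comb
  exact Finsupp.sum_single_index (by simp)

theorem comb_filter (g : V) (c : ℕ →₀ ℤ) (P : ℕ → Prop) [DecidablePred P] :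
    C.comb g c = C.comb g (c.filter P) + C.comb g (c.filter fun δ => ¬ P δ) := by
  rw [← comb_add, Finsupp.filter_add_filter_not]

theorem norm_act (x : Mt) (hx : 0 < x.det) (v : V) : ‖C.act x v‖ = ‖v‖ := by
  have h := C.inner_act x v v hx
  rw [inner_self_eq_norm_sq_to_K, inner_self_eq_norm_sq_to_K] at h
  have h2 : ‖C.act x v‖ ^ 2 = ‖v‖ ^ 2 := by exact_mod_cast h
  exact (pow_left_inj₀ (norm_nonneg _) (norm_nonneg _) two_ne_zero).1 h2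

/-- no coefficient below all the lower bounds -/
theorem van {N : ℕ} {g : V} (hO : OrdA C N g) {c : ℕ →₀ ℤ} (h0 : 0 ∉ c.support) {p : ℕ}
    (hp : p.Prime) (γ : SZ) (ν : ℚ) (h : ∀ δ ∈ c.support,
      padicValRat p ν < low p (γ 1 0) (δ.factorization p) (N.factorization p)) :
    C.β ν (C.act (ofZ γ) (C.comb g c)) = 0 := by
  unfold CS.comb Finsupp.sum
  rw [map_sum, map_sum]
  refine Finset.sum_eq_zero fun δ hδ => ?_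
  rw [map_smul, map_smul, smul_eq_zero]
  refine Or.inr (by_contra fun hne => ?_)
  exact absurd (hO δ γ ν (Nat.pos_of_ne_zero fun e => h0 (e ▸ hδ)) hne p hp) (not_le.2 (h δ hδ))

end

def ep (N p : ℕ) : ℤ := if p ∣ N then 0 else 1

/-- the correlations -/
def rr (p : ℕ) (a ε : ℤ) : ℕ → ℝ
  | 0 => 1
  | 1 => a / (p + ε)
  | n + 2 => (a * rr p a ε (n + 1) - ε * rr p a ε n) / p

/-- the constant of the Gram inequality -/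
def kap (p e : ℕ) (a : ℤ) (s : ℕ) : ℝ :=
  if e = 0 then
    (if s = 1 then 1 - |(a : ℝ)| / (p + 1)
    else if s = 2 then (1 - (a : ℝ) ^ 2 / (p + 1) ^ 2) * (1 - 1 / p)
    else (p - 1) * ((p + 1) ^ 2 - (a : ℝ) ^ 2) / (p ^ 2 * (p + 1)))
  else if e = 1 then (if s = 1 then 1 - 1 / (p : ℝ) else 1 - 1 / (p : ℝ) ^ 2) else 1

/-- local data -/
def Lc (p e : ℕ) (a ε : ℤ) : Prop := (e = 0 → ε = 1 ∧ |a| ≤ p) ∧
  (e = 1 → ε = 0 ∧ (a = 1 ∨ a = -1)) ∧ (2 ≤ e → ε = 0 ∧ a = 0)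

def lo (p d n j : ℕ) : ℝ := if 2 * j < 2 * d + n then (p : ℝ) ^ (2 * (j : ℤ) - d - n) else 0
def hi (p d n j : ℕ) : ℝ := if 2 * d + n < 2 * j then (p : ℝ) ^ d else 0
def ti (p d n j : ℕ) : ℝ := if 2 * j = 2 * d + n then (p : ℝ) ^ d else 0
def w0 (p n : ℕ) : ℝ := 1 / ((p : ℝ) ^ (n / 2) * (p + 1))
def w1 (p n : ℕ) : ℝ := if n % 2 = 0 then ((p : ℝ) - 1) / ((p : ℝ) ^ (n / 2) * (p + 1)) else 0

/-- the condition of `OrdB` at one prime -/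
def OBq (N : ℕ) (s D : ℕ → ℕ) (γ : SZ) (ν : ℚ) (q : ℕ) : Prop :=
  padicValRat q ν ≤ low q (γ 1 0) (D q) (N.factorization q) + s q ∧
    (¬ Mid q (γ 1 0) (D q) (N.factorization q) →
      padicValRat q ν = low q (γ 1 0) (D q) (N.factorization q))

def AQ (K : ℕ) (Q : Finset ℕ) : ℕ := ∏ q ∈ Q, q ^ K

def MQ (N : ℕ) (s : ℕ → ℕ) (Q : Finset ℕ) : ℝ :=
  ∏ q ∈ Q, ((Mp q (N.factorization q) (s q) : ℚ) : ℝ)

/-- the valuations are constant outside `Q` and bounded -/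
structure Adm (N K : ℕ) (Q : Finset ℕ) (D : ℕ → ℕ) (c : ℕ →₀ ℤ) : Prop where
  ne : c ≠ 0
  pos : 0 ∉ c.support
  cst : ∀ δ ∈ c.support, ∀ q : ℕ, q.Prime → q ∉ Q → δ.factorization q = D q
  bd : ∀ δ ∈ c.support, ∀ q : ℕ, δ.factorization q + N.factorization q ≤ K

/-- the valuations at `p` run exactly from `d` to `d + t` -/
structure Spr (p d t : ℕ) (c : ℕ →₀ ℤ) : Prop where
  rg : ∀ δ ∈ c.support, d ≤ δ.factorization p ∧ δ.factorization p ≤ d + t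
  bot : slc p d c ≠ 0
  top : slc p (d + t) c ≠ 0

section

variable {V : Type} [NormedAddCommGroup V] [InnerProductSpace ℂ V] (C : CS V)

/-- the inductive claim -/
def Claim (N : ℕ) (g : V) (b : ℕ → ℤ) (s : ℕ → ℕ) (K L : ℕ) (Q : Finset ℕ) (D : ℕ → ℕ)
    (c : ℕ →₀ ℤ) : Prop :=
  ∃ n : SZ → ℝ, Lev (AQ K Q) n ∧
    (∀ γ, ∃ ν, Su C (C.comb g c) γ ν ∧ (∀ q : ℕ, q.Prime → q ∉ Q → OBq N s D γ ν q) ∧
      ∏ q ∈ Q, (q : ℝ) ^ padicValRat q ν ≤ n γ) ∧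
    Av ⊤ L n * ‖g‖ ^ 2 ≤ MQ N s Q * ‖C.comb g c‖ ^ 2 ∧
    (Single C g (C.comb g c) ∨ ∃ p : ℕ, p.Prime ∧ Av ⊤ L n * ‖g‖ ^ 2 ≤
      ((loss p (N.factorization p) (b p) (s p) : ℚ) : ℝ) * MQ N s Q * ‖C.comb g c‖ ^ 2)

end

/-- a statement about every space -/
def ForC (P : ∀ (V : Type) [NormedAddCommGroup V] [InnerProductSpace ℂ V], CS V → Prop) : Prop :=
  ∀ (V : Type) [NormedAddCommGroup V] [InnerProductSpace ℂ V] (C : CS V), P V C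

/-- a statement about every newform with its orders -/
def ForN (P : ∀ (V : Type) [NormedAddCommGroup V] [InnerProductSpace ℂ V],
    CS V → ℕ → V → (ℕ → ℤ) → (ℕ → ℕ) → Prop) : Prop :=
  ∀ (V : Type) [NormedAddCommGroup V] [InnerProductSpace ℂ V] (C : CS V) (N : ℕ) (g : V)
    (b : ℕ → ℤ) (s : ℕ → ℕ), C.Good → NF C N g b → OrdA C N g → OrdB C N g s → P V C N g b s

def S_GR : Prop := ForC fun V _ _ C => ∀ (p : ℕ) (a ε : ℤ) (X Y : V) (i k : ℕ), p.Prime →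
  (ε = 0 ∨ ε = 1) → PF C p a ε X → PF C p a ε Y →
  ⟪C.act (Vd ((p : ℚ) ^ i)) X, C.act (Vd ((p : ℚ) ^ k)) Y⟫_ℂ =
    (rr p a ε (Nat.dist i k) : ℂ) * ⟪X, Y⟫_ℂ

def KAP : Prop := ForC fun V _ _ C => ∀ (p e : ℕ) (a ε : ℤ) (Y : ℕ → V) (d t : ℕ), p.Prime →
  Lc p e a ε → (∀ i, PF C p a ε (Y i)) → 1 ≤ t →
  kap p e a t * (‖Y 0‖ ^ 2 + ‖Y t‖ ^ 2) ≤
    ‖∑ i ∈ Finset.range (t + 1), C.act (Vd ((p : ℚ) ^ (d + i))) (Y i)‖ ^ 2

def S_KAP : Prop := S_GR → KAP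

def S_SL : Prop := ForC fun V _ _ C => ∀ (N : ℕ) (g : V) (b : ℕ → ℤ) (p : ℕ), NF C N g b →
  p.Prime → Lc p (N.factorization p) (b p) (ep N p) ∧
    (∀ δ : ℕ, 0 < δ → ¬ p ∣ δ → PF C p (b p) (ep N p) (C.act (Vd δ) g)) ∧
    ∀ c : ℕ →₀ ℤ, 0 ∉ c.support → (∀ i, ∃ Y, PF C p (b p) (ep N p) Y ∧
      C.comb g (slc p i c) = C.act (Vd ((p : ℚ) ^ i)) Y) ∧
    ∀ d t, (∀ δ ∈ c.support, d ≤ δ.factorization p ∧ δ.factorization p ≤ d + t) →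
      C.comb g c = ∑ i ∈ Finset.range (t + 1), C.comb g (slc p (d + i) c)

def S_FIX : Prop := ForC fun V _ _ C => ∀ (N : ℕ) (g : V) (b : ℕ → ℤ) (c : ℕ →₀ ℤ), NF C N g b →
  0 ∉ c.support → C.Rat (C.comb g c) ∧
    (∀ x : Mt, x.det = 1 → (∀ δ ∈ c.support, ∃ a' b' c' d' : ℤ, x.a = a' ∧ δ * x.b = b' ∧
      x.c = δ * N * c' ∧ x.d = d') → C.act x (C.comb g c) = C.comb g c) ∧
    ∀ M : ℕ, (∀ δ ∈ c.support, δ * N ∣ M) → C.Fix (Gamma1 M) (C.comb g c)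

def S_COL : Prop := ForG fun V _ _ C => ∀ (X : V) (M : ℕ) (u : ℤ) (γ γ' : SZ) (ν : ℚ), 0 < M →
  C.Fix (Gamma1 M) X → C.Rat X →
  (Su C X γ ν → ∃ m : ℤ, ν * M = m) ∧
  (IsCoprime u M → γ' 0 0 ≡ γ 0 0 [ZMOD M] → γ' 1 0 * u ≡ γ 1 0 [ZMOD M] →
    (Su C X γ' ν ↔ Su C X γ ν))

def TIE : Prop := ForN fun _ _ _ C N g _ _ => ∀ (c : ℕ →₀ ℤ) (p d t : ℕ) (γ : SZ) (ν : ℚ),
  0 ∉ c.support → p.Prime → 1 ≤ t →
  (∀ δ ∈ c.support, d ≤ δ.factorization p ∧ δ.factorization p ≤ d + t) → γ 1 0 ≠ 0 →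
  2 * padicValInt p (γ 1 0) = 2 * d + (N.factorization p + t) →
  ¬ (p = 2 ∧ N.factorization p + t = 2) → padicValRat p ν = d →
  Su C (C.comb g (slc p d c)) γ ν ∨ Su C (C.comb g (slc p (d + t) c)) γ ν →
  Su C (C.comb g c) γ ν

def S_TIE : Prop := S_FIX → S_COL → TIE

def S_LOC : Prop := ∀ (p K d n L : ℕ), p.Prime → 0 < L → p ^ K ∣ L → d + n ≤ K →
  (1 ≤ n → Av ⊤ L (fun γ => lo p d n (jv p K (γ 1 0))) = w0 p n ∧
    Av ⊤ L (fun γ => hi p d n (jv p K (γ 1 0))) = w0 p n ∧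
    Av ⊤ L (fun γ => ti p d n (jv p K (γ 1 0))) = w1 p n) ∧
  (n = 0 → Av ⊤ L (fun γ => lo p d n (jv p K (γ 1 0)) + ti p d n (jv p K (γ 1 0)) +
    hi p d n (jv p K (γ 1 0))) = 1)

def S_NUM : Prop := ∀ (p e s : ℕ) (a ε : ℤ), p.Prime → Lc p e a ε →
  (1 ≤ e → ((Mp p e s : ℚ) : ℝ) = 2 * w0 p e + (p : ℝ) ^ s * w1 p e) ∧
  0 < ((Mp p e s : ℚ) : ℝ) ∧ ((loss p e a s : ℚ) : ℝ) ≤ 1 ∧
  ∀ t, 1 ≤ t → 0 < kap p e a t ∧ (¬ (p = 2 ∧ e + t = 2) → 2 * w0 p (e + t) + w1 p (e + t) ≤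
    2 * kap p e a t * (((loss p e a s : ℚ) : ℝ) * ((Mp p e s : ℚ) : ℝ)))

def BASE : Prop := ForN fun _ _ _ C N g b s => ∀ (K L : ℕ) (D : ℕ → ℕ) (c : ℕ →₀ ℤ), 0 < L →
  Adm N K ∅ D c → Claim C N g b s K L ∅ D c

/-- no spread at `p` -/
def ST0 : Prop := ForN fun _ _ _ C N g b s => ∀ (K L p : ℕ) (Q : Finset ℕ) (D : ℕ → ℕ)
  (c : ℕ →₀ ℤ), 0 < L → p.Prime → p ∉ Q → (∀ q ∈ Q, q.Prime) → AQ K (insert p Q) ∣ L →
  D p + N.factorization p ≤ K → Claim C N g b s K L Q D c →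
  ∀ D' : ℕ → ℕ, (∀ q, q ≠ p → D' q = D q) → Claim C N g b s K L (insert p Q) D' c

def S_ST0 : Prop := S_SL → S_LOC → S_NUM → ST0

/-- spread at `p`, general case -/
def ST1 : Prop := ForN fun _ _ _ C N g b s => ∀ (K L p d t : ℕ) (Q : Finset ℕ) (D : ℕ → ℕ)
  (c : ℕ →₀ ℤ), 0 < L → p.Prime → p ∉ Q → (∀ q ∈ Q, q.Prime) → AQ K (insert p Q) ∣ L →
  0 ∉ c.support → 1 ≤ t → Spr p d t c → d + t + N.factorization p ≤ K →
  ¬ (p = 2 ∧ N.factorization p + t = 2) →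
  Claim C N g b s K L Q (Function.update D p d) (slc p d c) →
  Claim C N g b s K L Q (Function.update D p (d + t)) (slc p (d + t) c) →
  Claim C N g b s K L (insert p Q) D c

def S_ST1 : Prop := S_SL → KAP → TIE → S_LOC → S_NUM → ST1

/-- the half translate -/
def ZZ : Prop := ForN fun _ _ _ C N g b _ => ∀ (δ d : ℕ), Odd δ →
  (∀ i k : ℕ, ⟪C.act (Vd (δ * 2 ^ i : ℕ)) g, C.act (Vd (δ * 2 ^ k : ℕ)) g⟫_ℂ =
    (rr 2 (b 2) (ep N 2) (Nat.dist i k) : ℂ) * (‖g‖ ^ 2 : ℝ)) ∧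
  C.act (Vd (δ * 2 ^ d : ℕ)) g + C.act (Tr (1 / 2) * Vd (δ * 2 ^ d : ℕ)) g =
    (b 2 : ℂ) • C.act (Vd (δ * 2 ^ (d + 1) : ℕ)) g -
      (ep N 2 : ℂ) • C.act (Vd (δ * 2 ^ (d + 2) : ℕ)) g ∧
  ∀ γ : SZ, γ 1 0 ≠ 0 → padicValInt 2 (γ 1 0) = d + 1 → ∃ γ' : SZ,
    γ 1 0 = 2 ^ (d + 1) * γ' 1 0 ∧ ∀ ν : ℚ,
      Su C (C.act (Tr (1 / 2) * Vd (δ * 2 ^ d : ℕ)) g) γ (2 ^ (d + 2) * ν) ↔
        Su C (C.act (Vd δ) g) γ' ν

def S_ZZ : Prop := S_GR → S_SL → ZZ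

/-- spread at `2`, exceptional case -/
def ST2 : Prop := ForN fun _ _ _ C N g b s => ∀ (K L d t : ℕ) (D : ℕ → ℕ) (c : ℕ →₀ ℤ), 0 < L →
  AQ K {2} ∣ L → Adm N K {2} D c → 1 ≤ t → Spr 2 d t c → N.factorization 2 + t = 2 →
  Claim C N g b s K L {2} D c

def S_ST2 : Prop := S_SL → ZZ → S_LOC → ST2

def S_MAIN : Prop := BASE → ST0 → ST1 → ST2 → S_Tree

end

end Pool.Agent.MP_b2c033_nt.UT
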